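import Pool.Agent.CYC.Stmts

set_option autoImplicit false

namespace Pool.Agent.CYC

namespace CYS_

/-- the terms of a periodic trajectory, in terms of the minimal period -/
theorem set_eq (y : ℤ) (N : ℕ) (hN : 1 ≤ N) (hy : C^[N] y = y) :
    {x | ∃ t < N, x = C^[t] y} = {x | ∃ t < Function.minimalPeriod C y, x = C^[t] y} := by
  have hper : Function.IsPeriodicPt C N y := hy
  have hp : 0 < Function.minimalPeriod C y := hper.minimalPeriod_pos (by omega)
  have hle : Function.minimalPeriod C y ≤ N := hper.minimalPeriod_le (by omega)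
  ext x
  simp only [Set.mem_setOf_eq]
  constructor
  · rintro ⟨t, _, rfl⟩
    exact ⟨t % Function.minimalPeriod C y, Nat.mod_lt _ hp,
      (Function.iterate_mod_minimalPeriod_eq (f := C) (x := y) (n := t)).symm⟩
  · rintro ⟨t, ht, rfl⟩
    exact ⟨t, by omega, rfl⟩

theorem set_eq_image (y : ℤ) (p : ℕ) :
    {x | ∃ t < p, x = C^[t] y} = ((Finset.range p).image fun t => C^[t] y : Finset ℤ) := by
  ext x
  simp only [Set.mem_setOf_eq, Finset.coe_image, Finset.coe_range, Set.mem_image, Set.mem_Iio]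
  constructor
  · rintro ⟨t, ht, rfl⟩
    exact ⟨t, ht, rfl⟩
  · rintro ⟨t, ht, rfl⟩
    exact ⟨t, ht, rfl⟩

theorem inj (y : ℤ) (i j : ℕ) (hij : i < j) (hj : j < Function.minimalPeriod C y) :
    C^[i] y ≠ C^[j] y := by
  intro h
  have := (Function.iterate_eq_iterate_iff_of_lt_minimalPeriod (hij.trans hj) hj).1 h
  omega

theorem ncard_eq (y : ℤ) :
    ({x | ∃ t < Function.minimalPeriod C y, x = C^[t] y} : Set ℤ).ncard =
      Function.minimalPeriod C y := by
  rw [set_eq_image, Set.ncard_coe_finset, Finset.card_image_of_injOn, Finset.card_range]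
  intro i hi j hj h
  simp only [Finset.coe_range, Set.mem_Iio] at hi hj
  exact (Function.iterate_eq_iterate_iff_of_lt_minimalPeriod hi hj).1 h

/-- the orbit of a point of the orbit -/
theorem orbit_eq (y : ℤ) (t₀ : ℕ) (hp : 0 < Function.minimalPeriod C y) :
    {x | ∃ t < Function.minimalPeriod C y, x = C^[t] y} =
      {x | ∃ t < Function.minimalPeriod C y, x = C^[t] (C^[t₀] y)} := by
  set p := Function.minimalPeriod C y with hpdef
  have hmod : ∀ n, C^[n % p] y = C^[n] y := fun n =>
    Function.iterate_mod_minimalPeriod_eq (f := C) (x := y) (n := n)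
  ext x
  simp only [Set.mem_setOf_eq]
  constructor
  · rintro ⟨t, ht, rfl⟩
    -- want t' with t' + t₀ ≡ t mod p
    refine ⟨(t + (p - t₀ % p)) % p, Nat.mod_lt _ hp, ?_⟩
    rw [← Function.iterate_add_apply, ← hmod ((t + (p - t₀ % p)) % p + t₀), ← hmod t]
    congr 1
    have h1 : t₀ % p < p := Nat.mod_lt _ hp
    have h2 : ((t + (p - t₀ % p)) % p + t₀) % p = ((t + (p - t₀ % p)) + t₀ % p) % p := by
      rw [Nat.mod_add_mod, Nat.add_mod_mod]
    rw [h2]
    have h3 : (t + (p - t₀ % p)) + t₀ % p = t + p := by omega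
    rw [h3, Nat.add_mod_right]
  · rintro ⟨t, ht, rfl⟩
    refine ⟨(t + t₀) % p, Nat.mod_lt _ hp, ?_⟩
    rw [← Function.iterate_add_apply, hmod]

end CYS_

theorem cys_proof : Stmt_CYS := by
  rintro Z ⟨y, N, hN, hy, rfl⟩
  have hper : Function.IsPeriodicPt C N y := hy
  have hp : 0 < Function.minimalPeriod C y := hper.minimalPeriod_pos (by omega)
  rw [CYS_.set_eq y N hN hy]
  refine ⟨?_, ?_, ?_⟩
  · rw [CYS_.set_eq_image]
    exact Finset.finite_toSet _
  · rw [CYS_.ncard_eq]
    exact hp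
  · rintro x ⟨t₀, ht₀, rfl⟩
    rw [CYS_.ncard_eq]
    have hmem : y ∈ Function.periodicPts C := ⟨N, by omega, hper⟩
    have hmp : Function.minimalPeriod C (C^[t₀] y) = Function.minimalPeriod C y :=
      Function.minimalPeriod_apply_iterate hmem t₀
    refine ⟨?_, CYS_.orbit_eq y t₀ hp, ?_⟩
    · rw [← hmp]
      exact Function.iterate_minimalPeriod
    · intro i j hij hj
      exact CYS_.inj (C^[t₀] y) i j hij (by rw [hmp]; exact hj)

end Pool.Agent.CYC
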