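import Pool.Agent.CYC.Stmts
import Pool.Agent.CLX.StmtsT

/-!
# Cycles with a compressible parity word (MP_d02c56_nt)
-/

set_option autoImplicit false

namespace Pool.Agent.CYC

open Pool.Agent.CLX

theorem C_eq_col : C = col 1 := by
  funext x
  unfold C col
  by_cases h : x % 2 = 0
  · rw [if_pos h, if_pos (Int.even_iff.mpr h)]
  · rw [if_neg h, if_neg (fun h2 => h (Int.even_iff.mp h2))]

/-- all but finitely many cycles are incompressible -/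
theorem cycles (hT : Stmt_TRJ) (hLMN : Stmt_LMN) (hFNC : Stmt_FNC) (hCYS : Stmt_CYS) (c : ℝ) :
    {Z : Set ℤ | IsCycle Z ∧ ∃ x ∈ Z, (∀ z ∈ Z, |x| ≤ |z|) ∧
      ∃ K : ℕ, (K : ℝ) ≤ c * Real.log Z.ncard ∧ LZE (par 1 x) Z.ncard K}.Finite := by
  obtain ⟨N₁, h₁⟩ := hT c
  obtain ⟨N₂, h₂⟩ := hLMN
  refine (hFNC (max N₁ N₂)).subset ?_
  rintro Z ⟨hZ, x, hx, hmin, K, hK, hL⟩
  refine ⟨hZ, ?_⟩
  by_contra hcon
  have hcon' : max N₁ N₂ < Z.ncard := not_le.mp hcon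
  have hN₁ : N₁ ≤ Z.ncard := (le_max_left _ _).trans hcon'.le
  have hN₂ : N₂ ≤ Z.ncard := (le_max_right _ _).trans hcon'.le
  obtain ⟨_, _, hcy⟩ := hCYS Z hZ
  obtain ⟨_, _, hdis⟩ := hcy x hx
  have hlog := h₂ Z hZ hN₂ x hx hmin
  have h1 : Real.log |((1 : ℤ) : ℝ)| ≤ 2 * Real.sqrt Z.ncard := by
    simp
  have := h₁ Z.ncard hN₁ 1 x odd_one h1 hlog
    (fun i j hij hj => by
      have := hdis i j hij hj
      rwa [C_eq_col] at this) K hL
  linarith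

end Pool.Agent.CYC
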