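import Pool.Agent.CYC.Stmts

set_option autoImplicit false

namespace Pool.Agent.CYC

open Filter Topology

namespace EDT_

/-- the coefficients of `z^k exp(c z)` -/
noncomputable def cf (k : ℕ) (c : ℝ) (m : ℕ) : ℝ :=
  if k ≤ m then c ^ (m - k) / (m - k).factorial else 0

theorem cf_nonneg (k : ℕ) (c : ℝ) (hc : 0 ≤ c) (m : ℕ) : 0 ≤ cf k c m := by
  unfold cf
  split_ifs
  · positivity
  · exact le_rfl

theorem hasSum_cf (k : ℕ) (c z : ℝ) :
    HasSum (fun m => cf k c m * z ^ m) (z ^ k * Real.exp (c * z)) := by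
  have h0 : HasSum (fun n : ℕ => (c * z) ^ n / n.factorial) (Real.exp (c * z)) := by
    rw [Real.exp_eq_exp_ℝ]
    exact NormedSpace.expSeries_div_hasSum_exp (c * z)
  have h1 : HasSum (fun n : ℕ => cf k c (n + k) * z ^ (n + k)) (z ^ k * Real.exp (c * z)) := by
    refine (h0.mul_left (z ^ k)).congr_fun ?_
    intro n
    unfold cf
    rw [if_pos (Nat.le_add_left k n), Nat.add_sub_cancel, pow_add, mul_pow]
    ring
  have h2 := (hasSum_nat_add_iff (f := fun m => cf k c m * z ^ m) k).1 h1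
  have h3 : ∑ i ∈ Finset.range k, cf k c i * z ^ i = 0 := by
    refine Finset.sum_eq_zero fun i hi => ?_
    rw [Finset.mem_range] at hi
    unfold cf
    rw [if_neg (by omega), zero_mul]
  rwa [h3, add_zero] at h2

theorem three_rpow (l : ℕ) (z : ℝ) :
    (3 : ℝ) ^ ((l : ℝ) * z) = Real.exp (l * Real.log 3 * z) := by
  rw [Real.rpow_def_of_pos (by norm_num)]
  congr 1
  ring

end EDT_

open EDT_ in
theorem edt_proof (hPDF : Stmt_PDF) : Stmt_EDT := by
  classical
  intro N k l z ρ hz hρ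
  have hlog : 0 ≤ Real.log 3 := Real.log_nonneg (by norm_num)
  -- the approximations
  set f : (D : ℕ) → Fin N → Fin D → ℝ := fun D i m => cf (k i) (l i * Real.log 3) m with hf
  have hsum : ∀ (D : ℕ) (i : Fin N) (x : ℝ), ∑ m : Fin D, f D i m * x ^ (m : ℕ) =
      ∑ m ∈ Finset.range D, cf (k i) (l i * Real.log 3) m * x ^ m := fun D i x =>
    (Finset.sum_range (fun m => cf (k i) (l i * Real.log 3) m * x ^ m)).symm
  have key : ∀ D : ℕ, |(Matrix.of fun i j : Fin N => ∑ m, f D i m * z j ^ (m : ℕ)).det| *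
      ρ ^ (N * (N - 1) / 2) ≤
      ∑ σ : Equiv.Perm (Fin N), ∏ j, (ρ * z j) ^ k (σ j) *
        (3 : ℝ) ^ ((l (σ j) : ℝ) * (ρ * z j)) := by
    intro D
    refine (hPDF N D (f D) z ρ (fun i m => cf_nonneg _ _ (by positivity) _) hz hρ).trans ?_
    refine Finset.sum_le_sum fun σ _ => Finset.prod_le_prod (fun j _ => ?_) (fun j _ => ?_)
    · exact Finset.sum_nonneg fun m _ => mul_nonneg (cf_nonneg _ _ (by positivity) _)
        (pow_nonneg (mul_nonneg (by linarith) (hz j)) _)
    · rw [hsum, three_rpow]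
      refine sum_le_hasSum _ (fun m _ => ?_) (hasSum_cf _ _ _)
      exact mul_nonneg (cf_nonneg _ _ (by positivity) _)
        (pow_nonneg (mul_nonneg (by linarith) (hz j)) _)
  have lim : Tendsto (fun D : ℕ =>
      |(Matrix.of fun i j : Fin N => ∑ m, f D i m * z j ^ (m : ℕ)).det| * ρ ^ (N * (N - 1) / 2))
      atTop (𝓝 (|(Matrix.of fun i j : Fin N =>
        z j ^ k i * (3 : ℝ) ^ ((l i : ℝ) * z j)).det| * ρ ^ (N * (N - 1) / 2))) := by
    refine Tendsto.mul_const _ (Tendsto.abs ?_)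
    have hc : Continuous (fun A : Matrix (Fin N) (Fin N) ℝ => A.det) := continuous_id.matrix_det
    refine (hc.tendsto _).comp ?_
    refine tendsto_pi_nhds.2 fun i => tendsto_pi_nhds.2 fun j => ?_
    show Tendsto (fun D : ℕ => ∑ m, f D i m * z j ^ (m : ℕ)) atTop
      (𝓝 (z j ^ k i * (3 : ℝ) ^ ((l i : ℝ) * z j)))
    simp only [hsum]
    rw [three_rpow]
    exact (hasSum_cf _ _ _).tendsto_sum_nat
  exact le_of_tendsto lim (Eventually.of_forall key)

end Pool.Agent.CYC
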