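import Pool.Agent.CYC.Stmts

/-!
# Module FNC: finitely many cycles of bounded length
-/

set_option autoImplicit false

namespace Pool.Agent.CYC

namespace FNC_

/-- two trajectories with the same parities -/
theorem same_parity (x x' : ℤ) : ∀ N : ℕ,
    (∀ t < N, (C^[t] x % 2 = 0 ↔ C^[t] x' % 2 = 0)) →
    ∃ e a : ℕ, e + a = N ∧ (2 : ℤ) ^ e * (C^[N] x - C^[N] x') = 3 ^ a * (x - x') := by
  intro N
  induction N with
  | zero => intro _; exact ⟨0, 0, rfl, by simp⟩
  | succ N ih =>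
    intro h
    obtain ⟨e, a, hea, he⟩ := ih fun t ht => h t (by omega)
    have hN := h N (by omega)
    rw [Function.iterate_succ_apply', Function.iterate_succ_apply']
    by_cases h0 : C^[N] x % 2 = 0
    · have h0' := hN.1 h0
      refine ⟨e + 1, a, by omega, ?_⟩
      have h1 : C (C^[N] x) = C^[N] x / 2 := by simp [C, h0]
      have h2 : C (C^[N] x') = C^[N] x' / 2 := by simp [C, h0']
      rw [h1, h2, ← he, pow_succ]
      have h3 : 2 * (C^[N] x / 2) = C^[N] x := by omega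
      have h4 : 2 * (C^[N] x' / 2) = C^[N] x' := by omega
      calc (2 : ℤ) ^ e * 2 * (C^[N] x / 2 - C^[N] x' / 2)
          = 2 ^ e * (2 * (C^[N] x / 2) - 2 * (C^[N] x' / 2)) := by ring
        _ = 2 ^ e * (C^[N] x - C^[N] x') := by rw [h3, h4]
    · have h0' : ¬ C^[N] x' % 2 = 0 := fun hh => h0 (hN.2 hh)
      refine ⟨e, a + 1, by omega, ?_⟩
      have h1 : C (C^[N] x) = 3 * C^[N] x + 1 := by simp [C, h0]
      have h2 : C (C^[N] x') = 3 * C^[N] x' + 1 := by simp [C, h0']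
      rw [h1, h2, pow_succ]
      calc (2 : ℤ) ^ e * (3 * C^[N] x + 1 - (3 * C^[N] x' + 1))
          = 3 * (2 ^ e * (C^[N] x - C^[N] x')) := by ring
        _ = 3 ^ a * 3 * (x - x') := by rw [he]; ring

theorem two_pow_ne (e a : ℕ) (h : 1 ≤ e + a) : (2 : ℤ) ^ e - 3 ^ a ≠ 0 := by
  intro h0
  have h1 : (2 : ℤ) ^ e = 3 ^ a := by linarith
  have h2 : (2 : ℕ) ^ e = 3 ^ a := by exact_mod_cast h1
  rcases Nat.eq_zero_or_pos e with he | he
  · subst he
    have h3 : 1 < 3 ^ a := Nat.one_lt_pow (by omega) (by norm_num)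
    simp at h2
    omega
  · have h3 : Even (2 ^ e) := (Nat.even_pow.2 ⟨even_two, by omega⟩)
    have h4 : Odd (3 ^ a) := Odd.pow (by decide)
    rw [h2] at h3
    exact (Nat.not_even_iff_odd.2 h4) h3

/-- finitely many integers with a given period -/
theorem fin_fix (N : ℕ) (hN : 1 ≤ N) : {x : ℤ | C^[N] x = x}.Finite := by
  refine Set.Finite.of_injOn (t := (Set.univ : Set (Fin N → Bool)))
    (f := fun (x : ℤ) (t : Fin N) => decide (C^[(t : ℕ)] x % 2 = 0)) (fun _ _ => Set.mem_univ _) ?_ Set.finite_univ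
  intro x hx x' hx' hxx
  have hx1 : C^[N] x = x := hx
  have hx2 : C^[N] x' = x' := hx'
  obtain ⟨e, a, hea, he⟩ := same_parity x x' N fun t ht => by
    have h := congrFun hxx ⟨t, ht⟩
    simpa using h
  rw [hx1, hx2] at he
  have h1 : ((2 : ℤ) ^ e - 3 ^ a) * (x - x') = 0 := by linarith
  rcases mul_eq_zero.1 h1 with h2 | h2
  · exact absurd h2 (two_pow_ne e a (by omega))
  · linarith

end FNC_

open FNC_ in
theorem fnc_proof (hCYS : Stmt_CYS) : Stmt_FNC := by
  intro N₀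
  have hfin : (⋃ N ∈ Finset.Icc 1 N₀,
      (fun x : ℤ => {z : ℤ | ∃ t < N, z = C^[t] x}) '' {x : ℤ | C^[N] x = x}).Finite := by
    refine Set.Finite.biUnion (Finset.finite_toSet _) ?_
    intro N hN
    have hN' : N ∈ Finset.Icc 1 N₀ := by exact_mod_cast hN
    exact (fin_fix N (Finset.mem_Icc.1 hN').1).image _
  refine hfin.subset ?_
  rintro Z ⟨hZ, hc⟩
  obtain ⟨h1, h2, h3⟩ := hCYS Z hZ
  have hne : Z.Nonempty := by
    rw [← Set.ncard_pos h1]
    omega
  obtain ⟨x, hx⟩ := hne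
  obtain ⟨h4, h5, -⟩ := h3 x hx
  simp only [Set.mem_iUnion]
  exact ⟨Z.ncard, Finset.mem_Icc.2 ⟨h2, hc⟩, x, h4, h5.symm⟩

end Pool.Agent.CYC
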