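import Pool.Agent.CYC.Stmts

set_option autoImplicit false

namespace Pool.Agent.CYC

namespace LBD_

/-- the entries -/
noncomputable def Am (K L M a b : ℕ) (i : Fin (K * L)) (p : Fin (L + M) × Fin M) : ℝ :=
  (((p.1 * b + p.2 * a : ℕ) : ℝ)) ^ ((i : ℕ) / L) * (((3 ^ (p.1 : ℕ) * 2 ^ (p.2 : ℕ) : ℕ) : ℝ)) ^ ((i : ℕ) % L)

lemma indep (hZES : Stmt_ZES) (K L M a b : ℕ) (hab : Nat.Coprime a b) (hb : 1 ≤ b) (hM : M ≤ b)
    (hKL : K * L ≤ M ^ 2) : LinearIndependent ℝ (Am K L M a b) := by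
  rw [Fintype.linearIndependent_iff]
  intro g hg i
  have hf := hZES K L M a b (fun k l => g (finProdFinEquiv (k, l))) hab hb hM hKL (by
    intro r s hr hs
    have h := congrFun hg (⟨r, hr⟩, ⟨s, hs⟩)
    simp only [Finset.sum_apply, Pi.smul_apply, smul_eq_mul, Pi.zero_apply] at h
    rw [← finProdFinEquiv.sum_comp, Fintype.sum_prod_type] at h
    rw [← h]
    refine Finset.sum_congr rfl fun k _ => Finset.sum_congr rfl fun l _ => ?_
    have hL : 0 < L := lt_of_le_of_lt (Nat.zero_le _) l.2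
    have e1 : ((finProdFinEquiv (k, l) : Fin (K * L)) : ℕ) / L = k := by
      rw [finProdFinEquiv_apply_val]
      simp only
      rw [Nat.add_mul_div_left _ _ hL, Nat.div_eq_of_lt l.2, zero_add]
    have e2 : ((finProdFinEquiv (k, l) : Fin (K * L)) : ℕ) % L = l := by
      rw [finProdFinEquiv_apply_val]
      simp only
      rw [Nat.add_mul_mod_self_left, Nat.mod_eq_of_lt l.2]
    simp only [Am]
    rw [e1, e2, mul_assoc])
  have h : g (finProdFinEquiv ((finProdFinEquiv.symm i).1, (finProdFinEquiv.symm i).2)) = 0 :=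
    congrFun (congrFun hf (finProdFinEquiv.symm i).1) (finProdFinEquiv.symm i).2
  rwa [Prod.mk.eta, Equiv.apply_symm_apply] at h

end LBD_

open LBD_ in
/-- LBD. Uses ZES, MNR. -/
theorem lbd_proof (hZES : Stmt_ZES) (hMNR : Stmt_MNR) : Stmt_LBD := by
  intro K L M a b hab hb hM hKL
  obtain ⟨c, hc⟩ := hMNR (K * L) (Fin (L + M) × Fin M) (Am K L M a b)
    (indep hZES K L M a b hab hb hM hKL)
  refine ⟨fun j => (c j).1, fun j => (c j).2, fun j => ⟨(c j).1.2, (c j).2.2⟩, ?_⟩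
  have hb0 : (b : ℝ) ≠ 0 := by exact_mod_cast (by omega : b ≠ 0)
  set B : Matrix (Fin (K * L)) (Fin (K * L)) ℝ := Matrix.of fun i j : Fin (K * L) =>
    ((((c j).1 : ℕ) : ℝ) + ((c j).2 : ℕ) * ((a : ℝ) / b)) ^ ((i : ℕ) / L) *
      ((3 : ℝ) ^ ((c j).1 : ℕ) * 2 ^ ((c j).2 : ℕ)) ^ ((i : ℕ) % L) with hB
  have e1 : (Matrix.of fun i j : Fin (K * L) => Am K L M a b i (c j)) =
      Matrix.of fun i j : Fin (K * L) => (b : ℝ) ^ ((i : ℕ) / L) * B i j := by
    ext i j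
    simp only [Matrix.of_apply, Am, hB]
    rw [← mul_assoc, ← mul_pow]
    congr 2
    · push_cast
      field_simp
    · push_cast
      rfl
  have e2 : (Matrix.of fun i j : Fin (K * L) => Am K L M a b i (c j)).det =
      (∏ i : Fin (K * L), (b : ℝ) ^ ((i : ℕ) / L)) * B.det := by
    rw [e1, Matrix.det_mul_column]
  -- integrality
  have e3 : (Matrix.of fun i j : Fin (K * L) => Am K L M a b i (c j)).det =
      (((Matrix.of fun i j : Fin (K * L) => ((((c j).1 * b + (c j).2 * a : ℕ) : ℤ)) ^ ((i : ℕ) / L) *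
        (((3 ^ ((c j).1 : ℕ) * 2 ^ ((c j).2 : ℕ) : ℕ) : ℤ)) ^ ((i : ℕ) % L)).det : ℤ) : ℝ) := by
    have h := (Int.castRingHom ℝ).map_det (Matrix.of fun i j : Fin (K * L) =>
      ((((c j).1 * b + (c j).2 * a : ℕ) : ℤ)) ^ ((i : ℕ) / L) *
        (((3 ^ ((c j).1 : ℕ) * 2 ^ ((c j).2 : ℕ) : ℕ) : ℤ)) ^ ((i : ℕ) % L))
    rw [eq_intCast] at h
    rw [h]
    congr 1
    ext i j
    simp [Am]
  have h1 : 1 ≤ |(Matrix.of fun i j : Fin (K * L) => Am K L M a b i (c j)).det| := by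
    rw [e3] at hc ⊢
    have : (Matrix.of fun i j : Fin (K * L) => ((((c j).1 * b + (c j).2 * a : ℕ) : ℤ)) ^ ((i : ℕ) / L) *
        (((3 ^ ((c j).1 : ℕ) * 2 ^ ((c j).2 : ℕ) : ℕ) : ℤ)) ^ ((i : ℕ) % L)).det ≠ 0 := by
      intro h0
      rw [h0] at hc
      simp at hc
    have := Int.one_le_abs this
    rw [← Int.cast_abs]
    exact_mod_cast this
  have hprod : ∏ i : Fin (K * L), (b : ℝ) ^ ((i : ℕ) / L) ≤ (b : ℝ) ^ (K * K * L) := by
    have hb1 : (1 : ℝ) ≤ b := by exact_mod_cast hb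
    calc ∏ i : Fin (K * L), (b : ℝ) ^ ((i : ℕ) / L) ≤ ∏ _i : Fin (K * L), (b : ℝ) ^ K := by
          refine Finset.prod_le_prod (fun _ _ => by positivity) fun i _ => ?_
          refine pow_le_pow_right₀ hb1 ?_
          exact (Nat.div_lt_of_lt_mul (lt_of_lt_of_eq i.2 (mul_comm K L))).le
      _ = (b : ℝ) ^ (K * K * L) := by
          rw [Finset.prod_const, Finset.card_univ, Fintype.card_fin, ← pow_mul]
          congr 1
          ring
  calc (1 : ℝ) ≤ |(Matrix.of fun i j : Fin (K * L) => Am K L M a b i (c j)).det| := h1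
    _ = (∏ i : Fin (K * L), (b : ℝ) ^ ((i : ℕ) / L)) * |B.det| := by
        rw [e2, abs_mul, abs_of_nonneg (Finset.prod_nonneg fun _ _ => by positivity)]
    _ ≤ (b : ℝ) ^ (K * K * L) * |B.det| := mul_le_mul_of_nonneg_right hprod (abs_nonneg _)
    _ = _ := mul_comm _ _

end Pool.Agent.CYC
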