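import Pool.Agent.CYC.Stmts

/-!
# Squad CYC, module LCP: the lower bound for coprime coefficients
-/

set_option autoImplicit false

namespace Pool.Agent.CYC

namespace LCP_

theorem log2_lt : Real.log 2 < 0.7 := by
  have := Real.log_two_lt_d9
  linarith

theorem log3_gt : 1 < Real.log 3 := by
  have h : Real.exp 1 < 3 := by
    have := Real.exp_one_lt_d9
    linarith
  have := Real.log_lt_log (Real.exp_pos 1) h
  rwa [Real.log_exp] at this

/-- the ratio of the integer entries and the real entries -/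
theorem ratio (r s l a b : ℕ) (hb : 1 ≤ b) :
    ((3 : ℝ) ^ r * 2 ^ s) ^ l =
      (3 : ℝ) ^ ((l : ℝ) * ((r : ℝ) + s * ((a : ℝ) / b))) *
        Real.exp ((l : ℝ) * s * (b * Real.log 2 - a * Real.log 3) / b) := by
  have hb0 : (b : ℝ) ≠ 0 := by
    have : (1 : ℝ) ≤ b := by exact_mod_cast hb
    linarith
  have h3 : (3 : ℝ) ^ r = Real.exp (r * Real.log 3) := by
    rw [mul_comm, ← Real.rpow_natCast, Real.rpow_def_of_pos (by norm_num)]
  have h2 : (2 : ℝ) ^ s = Real.exp (s * Real.log 2) := by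
    rw [mul_comm, ← Real.rpow_natCast, Real.rpow_def_of_pos (by norm_num)]
  rw [h3, h2, ← Real.exp_add, ← Real.exp_nat_mul, Real.rpow_def_of_pos (by norm_num),
    ← Real.exp_add]
  congr 1
  field_simp
  ring

end LCP_

open LCP_ in
theorem lcp_proof (hEDT : Stmt_EDT) (hPTB : Stmt_PTB) (hLBD : Stmt_LBD) (hLNU : Stmt_LNU) :
    Stmt_LCP := by
  intro n a b hn hab hb1 hb2
  obtain ⟨hN1, hN2, hN3⟩ := hLNU n hn
  obtain ⟨Λ, hΛ⟩ : ∃ Λ : ℝ, Λ = b * Real.log 2 - a * Real.log 3 := ⟨_, rfl⟩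
  rw [← hΛ]
  have hn0 : 0 < n := by omega
  have hn2 : 1 ≤ n ^ 2 := Nat.one_le_pow _ _ hn0
  have hn8 : 1 ≤ 150000 * n ^ 8 := by
    have : 1 ≤ n ^ 8 := Nat.one_le_pow _ _ hn0
    omega
  have hb30 : 30 * n ^ 4 < b := lt_of_le_of_lt hN3 hb1
  have hbR : (30 : ℝ) * n ^ 4 < b := by exact_mod_cast hb30
  have hb0 : (0 : ℝ) < b := by
    have : (0 : ℝ) ≤ 30 * n ^ 4 := by positivity
    linarith
  have hbN : 1 ≤ b := by omega
  have hT : (0 : ℝ) < (3 : ℝ) ^ (150000 * n ^ 8) := by positivity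
  rcases le_or_gt (1 / 2) |Λ| with hbig | hsmall
  · refine le_trans ?_ hbig
    rw [one_div]
    apply inv_anti₀ (by norm_num)
    have h1 : (3 : ℝ) ^ 1 ≤ (3 : ℝ) ^ (150000 * n ^ 8) := pow_le_pow_right₀ (by norm_num) hn8
    linarith
  have hab' : a ≤ b := by
    by_contra hcon
    have h1 : (b : ℝ) + 1 ≤ a := by exact_mod_cast (by omega : b + 1 ≤ a)
    have h2 := abs_lt.1 hsmall
    have h3 : ((b : ℝ) + 1) * Real.log 3 ≤ a * Real.log 3 :=
      mul_le_mul_of_nonneg_right h1 (by linarith [log3_gt])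
    have h4 := log2_lt
    have h5 := log3_gt
    have h6 : (b : ℝ) * Real.log 2 ≤ b * Real.log 3 :=
      mul_le_mul_of_nonneg_left (by linarith) hb0.le
    nlinarith
  obtain ⟨K, hK⟩ : ∃ K, K = 900 * n ^ 2 := ⟨_, rfl⟩
  obtain ⟨L, hL⟩ : ∃ L, L = n ^ 2 := ⟨_, rfl⟩
  obtain ⟨N, hN⟩ : ∃ N, N = K * L := ⟨_, rfl⟩
  have hN' : N = 900 * n ^ 4 := by rw [hN, hK, hL]; ring
  have hLpos : 0 < L := by rw [hL]; exact hn2
  have hM : K * L ≤ (30 * n ^ 2) ^ 2 := by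
    rw [hK, hL]
    apply le_of_eq
    ring
  have hMb : 30 * n ^ 2 ≤ b := by
    have h1 : n ^ 2 ≤ n ^ 4 := Nat.pow_le_pow_right hn0 (by norm_num)
    omega
  obtain ⟨r, s, hrs, hdet⟩ := hLBD K L (30 * n ^ 2) a b hab hbN hMb hM
  rw [← hN'] at hN1 hN2
  rw [← hK] at hN1 hN2
  have hKKL : n * (K * K * n ^ 2) = n * (K * K * L) := by rw [hL]
  rw [hKKL] at hN1 hN2
  -- the points
  obtain ⟨z, hz⟩ : ∃ z : Fin (K * L) → ℝ, ∀ j, z j = (r j : ℝ) + s j * ((a : ℝ) / b) :=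
    ⟨_, fun _ => rfl⟩
  have hab1 : (a : ℝ) / b ≤ 1 := by
    rw [div_le_one hb0]
    exact_mod_cast hab'
  have hab0 : (0 : ℝ) ≤ (a : ℝ) / b := by positivity
  have hz0 : ∀ j, 0 ≤ z j := by
    intro j
    rw [hz]
    positivity
  have hz1 : ∀ j, z j ≤ 62 * (n : ℝ) ^ 2 := by
    intro j
    rw [hz]
    have h1 : (r j : ℝ) ≤ 31 * (n : ℝ) ^ 2 := by
      have h2 : r j ≤ 31 * n ^ 2 := by
        have := (hrs j).1
        omega
      exact_mod_cast h2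
    have h3 : (s j : ℝ) ≤ 30 * (n : ℝ) ^ 2 := by
      have h2 : s j ≤ 30 * n ^ 2 := by
        have := (hrs j).2
        omega
      exact_mod_cast h2
    have h4 : (s j : ℝ) * ((a : ℝ) / b) ≤ s j * 1 :=
      mul_le_mul_of_nonneg_left hab1 (Nat.cast_nonneg _)
    have h5 : (0 : ℝ) ≤ (n : ℝ) ^ 2 := by positivity
    linarith
  -- the exponents
  have hkK : ∀ i : Fin (K * L), (i : ℕ) / L ≤ K := by
    intro i
    have h1 : (i : ℕ) / L < K :=
      Nat.div_lt_of_lt_mul (lt_of_lt_of_eq i.isLt (Nat.mul_comm K L))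
    omega
  have hlL : ∀ i : Fin (K * L), (((i : ℕ) % L : ℕ) : ℝ) ≤ (n : ℝ) ^ 2 := by
    intro i
    have h1 : (i : ℕ) % L ≤ n ^ 2 := by
      have := Nat.mod_lt (i : ℕ) hLpos
      omega
    exact_mod_cast h1
  -- bounds of the entries
  have hn2R : (1 : ℝ) ≤ (n : ℝ) ^ 2 := by exact_mod_cast hn2
  have hent : ∀ (c : ℝ) (cN : ℕ), (cN : ℝ) = c * (62 * (n : ℝ) ^ 2) → 1 ≤ c →
      ∀ (i j : Fin (K * L)) (e : ℕ), (e : ℝ) = c * (62 * (n : ℝ) ^ 2) * (n : ℝ) ^ 2 →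
      (c * z j) ^ ((i : ℕ) / L) * (3 : ℝ) ^ ((((i : ℕ) % L : ℕ) : ℝ) * (c * z j)) ≤
        (cN : ℝ) ^ K * (3 : ℝ) ^ e := by
    intro c cN hc hc1 i j e he
    have h0 : 0 ≤ c * z j := mul_nonneg (by linarith) (hz0 j)
    have h1 : c * z j ≤ cN := by
      rw [hc]
      exact mul_le_mul_of_nonneg_left (hz1 j) (by linarith)
    have hcN1 : (1 : ℝ) ≤ cN := by
      rw [hc]
      nlinarith
    have h2 : (c * z j) ^ ((i : ℕ) / L) ≤ (cN : ℝ) ^ K :=
      le_trans (pow_le_pow_left₀ h0 h1 _) (pow_le_pow_right₀ hcN1 (hkK i))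
    have h3 : (((i : ℕ) % L : ℕ) : ℝ) * (c * z j) ≤ (e : ℝ) := by
      rw [he, ← hc, mul_comm (cN : ℝ)]
      exact mul_le_mul (hlL i) h1 h0 (by positivity)
    have h4 : (3 : ℝ) ^ ((((i : ℕ) % L : ℕ) : ℝ) * (c * z j)) ≤ (3 : ℝ) ^ e := by
      rw [← Real.rpow_natCast]
      exact Real.rpow_le_rpow_of_exponent_le (by norm_num) h3
    exact mul_le_mul h2 h4 (by positivity) (by positivity)
  -- the matrices
  obtain ⟨A, hA⟩ : ∃ A : Matrix (Fin (K * L)) (Fin (K * L)) ℝ, A = Matrix.of fun i j : Fin (K * L) =>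
      z j ^ ((i : ℕ) / L) * (3 : ℝ) ^ ((((i : ℕ) % L : ℕ) : ℝ) * z j) := ⟨_, rfl⟩
  obtain ⟨E, hE⟩ : ∃ E : Matrix (Fin (K * L)) (Fin (K * L)) ℝ, E = Matrix.of fun i j : Fin (K * L) =>
      Real.exp ((((i : ℕ) % L : ℕ) : ℝ) * s j * Λ / b) - 1 := ⟨_, rfl⟩
  obtain ⟨dB, hdB⟩ : ∃ d : ℝ, d = (Matrix.of fun i j : Fin (K * L) =>
      A i j * (1 + E i j)).det := ⟨_, rfl⟩
  have hB : (Matrix.of fun i j : Fin (K * L) =>
          ((r j : ℝ) + s j * ((a : ℝ) / b)) ^ ((i : ℕ) / L) *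
            ((3 : ℝ) ^ (r j) * 2 ^ (s j)) ^ ((i : ℕ) % L)).det = dB := by
    rw [hdB]
    congr 1
    ext i j
    simp only [hA, hE, Matrix.of_apply]
    rw [ratio (r j) (s j) ((i : ℕ) % L) a b hbN, ← hΛ, ← hz j]
    ring
  rw [hB] at hdet
  -- the upper bound for A
  have hdetA : |A.det| * (3 : ℝ) ^ (K * L * (K * L - 1) / 2) ≤
      (N.factorial : ℝ) * ((186 * (n : ℝ) ^ 2) ^ K * 3 ^ (186 * n ^ 4)) ^ N := by
    have h1 := hEDT (K * L) (fun i => (i : ℕ) / L) (fun i => (i : ℕ) % L) z 3 hz0 (by norm_num)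
    rw [← hA] at h1
    refine h1.trans ?_
    have h2 : ∀ σ : Equiv.Perm (Fin (K * L)),
        ∏ j, (3 * z j) ^ ((σ j : ℕ) / L) *
          (3 : ℝ) ^ ((((σ j : ℕ) % L : ℕ) : ℝ) * (3 * z j)) ≤
        ((186 * (n : ℝ) ^ 2) ^ K * 3 ^ (186 * n ^ 4)) ^ N := by
      intro σ
      have h3 : ∏ j, (3 * z j) ^ ((σ j : ℕ) / L) *
          (3 : ℝ) ^ ((((σ j : ℕ) % L : ℕ) : ℝ) * (3 * z j)) ≤
          ∏ _j : Fin (K * L), (186 * (n : ℝ) ^ 2) ^ K * 3 ^ (186 * n ^ 4) := by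
        apply Finset.prod_le_prod
        · intro j _
          have := hz0 j
          positivity
        · intro j _
          have h4 := hent 3 (186 * n ^ 2) (by push_cast; ring) (by norm_num) (σ j) j
            (186 * n ^ 4) (by push_cast; ring)
          refine h4.trans (le_of_eq ?_)
          push_cast
          ring
      refine h3.trans (le_of_eq ?_)
      rw [Finset.prod_const, Finset.card_univ, Fintype.card_fin, ← hN]
    calc ∑ σ : Equiv.Perm (Fin (K * L)), ∏ j, (3 * z j) ^ ((σ j : ℕ) / L) *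
          (3 : ℝ) ^ ((((σ j : ℕ) % L : ℕ) : ℝ) * (3 * z j))
        ≤ ∑ _σ : Equiv.Perm (Fin (K * L)),
          ((186 * (n : ℝ) ^ 2) ^ K * 3 ^ (186 * n ^ 4)) ^ N :=
          Finset.sum_le_sum (fun σ _ => h2 σ)
      _ = _ := by
        rw [Finset.sum_const, Finset.card_univ, Fintype.card_perm, Fintype.card_fin, ← hN,
          nsmul_eq_mul]
  obtain ⟨G, hG⟩ : ∃ G : ℝ, G = (3 : ℝ) ^ (n * (K * K * L)) := ⟨_, rfl⟩
  have hG0 : 0 < G := by rw [hG]; positivity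
  obtain ⟨F, hF⟩ : ∃ F : ℝ, F = (N.factorial : ℝ) *
    ((186 * (n : ℝ) ^ 2) ^ K * 3 ^ (186 * n ^ 4)) ^ N := ⟨_, rfl⟩
  have hF0 : 0 < F := by
    rw [hF]
    have h1 : (0 : ℝ) < N.factorial := by exact_mod_cast Nat.factorial_pos N
    positivity
  have hN1' : F * G * 2 ≤ (3 : ℝ) ^ (K * L * (K * L - 1) / 2) := by
    rw [hF, hG, ← hN]
    exact_mod_cast hN1
  have hAG : |A.det| * (G * 2) ≤ 1 := by
    rw [← hF] at hdetA
    have h1 : |A.det| * (F * G * 2) ≤ |A.det| * (3 : ℝ) ^ (K * L * (K * L - 1) / 2) :=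
      mul_le_mul_of_nonneg_left hN1' (abs_nonneg _)
    have h2 : F * (|A.det| * (G * 2)) ≤ F * 1 := by
      calc F * (|A.det| * (G * 2)) = |A.det| * (F * G * 2) := by ring
        _ ≤ F := h1.trans hdetA
        _ = F * 1 := (mul_one _).symm
    exact le_of_mul_le_mul_left h2 hF0
  have hBG : 1 ≤ |dB| * G := by
    refine hdet.trans ?_
    apply mul_le_mul_of_nonneg_left _ (abs_nonneg _)
    rw [hG]
    calc (b : ℝ) ^ (K * K * L) ≤ ((3 : ℝ) ^ n) ^ (K * K * L) :=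
          pow_le_pow_left₀ hb0.le (by exact_mod_cast hb2) _
      _ = (3 : ℝ) ^ (n * (K * K * L)) := (pow_mul 3 n _).symm
  -- the difference
  have hEb : ∀ i j, |E i j| ≤ 2 * |Λ| := by
    intro i j
    simp only [hE, Matrix.of_apply]
    have h1 : |(((i : ℕ) % L : ℕ) : ℝ) * s j * Λ / b| ≤ |Λ| := by
      rw [abs_div, abs_mul, abs_of_pos hb0, div_le_iff₀ hb0]
      have h2 : |(((i : ℕ) % L : ℕ) : ℝ) * (s j : ℝ)| ≤ b := by
        rw [abs_of_nonneg (by positivity)]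
        have h3 : (s j : ℝ) ≤ 30 * (n : ℝ) ^ 2 := by
          have h2 : s j ≤ 30 * n ^ 2 := by
            have := (hrs j).2
            omega
          exact_mod_cast h2
        calc (((i : ℕ) % L : ℕ) : ℝ) * (s j : ℝ) ≤ (n : ℝ) ^ 2 * (30 * (n : ℝ) ^ 2) :=
              mul_le_mul (hlL i) h3 (Nat.cast_nonneg _) (by positivity)
          _ = 30 * (n : ℝ) ^ 4 := by ring
          _ ≤ b := hbR.le
      rw [mul_comm |Λ|]
      exact mul_le_mul_of_nonneg_right h2 (abs_nonneg _)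
    have h4 : |(((i : ℕ) % L : ℕ) : ℝ) * s j * Λ / b| ≤ 1 := by linarith
    exact (Real.abs_exp_sub_one_le h4).trans (by linarith)
  have hAb : ∀ i j, |A i j| ≤ (62 * (n : ℝ) ^ 2) ^ K * 3 ^ (62 * n ^ 4) := by
    intro i j
    simp only [hA, Matrix.of_apply]
    have h0 : 0 ≤ z j ^ ((i : ℕ) / L) * (3 : ℝ) ^ ((((i : ℕ) % L : ℕ) : ℝ) * z j) := by
      have := hz0 j
      positivity
    rw [abs_of_nonneg h0]
    have h4 := hent 1 (62 * n ^ 2) (by push_cast; ring) (le_refl _) i j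
      (62 * n ^ 4) (by push_cast; ring)
    rw [one_mul] at h4
    refine h4.trans (le_of_eq ?_)
    push_cast
    ring
  have hpt := hPTB (K * L) A E ((62 * (n : ℝ) ^ 2) ^ K * 3 ^ (62 * n ^ 4)) (2 * |Λ|)
    (by positivity) (by positivity) (by linarith) hAb hEb
  rw [← hdB] at hpt
  obtain ⟨Q, hQ⟩ : ∃ Q : ℝ, Q = ((K * L).factorial : ℝ) *
    ((62 * (n : ℝ) ^ 2) ^ K * 3 ^ (62 * n ^ 4)) ^ (K * L) * 2 ^ (K * L) := ⟨_, rfl⟩
  rw [← hQ] at hpt
  have hN2' : Q * 4 * G ≤ (3 : ℝ) ^ (150000 * n ^ 8) := by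
    rw [hQ, hG, ← hN]
    exact_mod_cast hN2
  have h1 : |dB| ≤ |A.det| + |dB - A.det| := by
    have := abs_add_le A.det (dB - A.det)
    rwa [add_sub_cancel] at this
  have h2 : 1 ≤ Q * 4 * G * |Λ| := by
    have h3 : |dB| * G ≤ (|A.det| + Q * (2 * |Λ|)) * G :=
      mul_le_mul_of_nonneg_right (h1.trans (by linarith)) hG0.le
    nlinarith
  have h3 : 1 ≤ (3 : ℝ) ^ (150000 * n ^ 8) * |Λ| :=
    h2.trans (mul_le_mul_of_nonneg_right hN2' (abs_nonneg _))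
  rw [inv_le_iff_one_le_mul₀ hT, mul_comm]
  exact h3

end Pool.Agent.CYC
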