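import Pool.Agent.CYC.Stmts

/-!
# CYC, module LGN: the lower bound for `b log 2 - a log 3` (MP_d02c56_nt)
-/

set_option autoImplicit false

namespace Pool.Agent.CYC

open Filter

namespace LGN_

/-- two different positive integers have different logarithms -/
theorem log_diff {P Q : ℕ} (hP : 0 < P) (hQ : 0 < Q) (hne : P ≠ Q) :
    ((P : ℝ) + 1)⁻¹ ≤ |Real.log P - Real.log Q| := by
  have hP' : (0 : ℝ) < P := by exact_mod_cast hP
  have hQ' : (0 : ℝ) < Q := by exact_mod_cast hQ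
  rcases lt_or_gt_of_ne hne with h | h
  · -- `P < Q`
    have h1 : (P : ℝ) + 1 ≤ Q := by exact_mod_cast h
    have h2 := Real.one_sub_inv_le_log_of_pos (div_pos hQ' hP')
    rw [Real.log_div hQ'.ne' hP'.ne', inv_div] at h2
    rw [abs_sub_comm]
    refine le_trans ?_ (h2.trans (le_abs_self _))
    have h3 : (P : ℝ) / Q ≤ P / (P + 1) := by
      apply div_le_div_of_nonneg_left hP'.le (by linarith) h1
    have h4 : (P : ℝ) / (P + 1) = 1 - ((P : ℝ) + 1)⁻¹ := by
      field_simp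
      ring
    linarith
  · have h1 : (Q : ℝ) + 1 ≤ P := by exact_mod_cast h
    have h2 := Real.one_sub_inv_le_log_of_pos (div_pos hP' hQ')
    rw [Real.log_div hP'.ne' hQ'.ne', inv_div] at h2
    refine le_trans ?_ (h2.trans (le_abs_self _))
    have h3 : (Q : ℝ) / P ≤ 1 - (P : ℝ)⁻¹ := by
      rw [div_le_iff₀ hP']
      have : (1 - (P : ℝ)⁻¹) * P = P - 1 := by
        field_simp
      rw [this]
      linarith
    have h4 : ((P : ℝ) + 1)⁻¹ ≤ (P : ℝ)⁻¹ := inv_anti₀ hP' (by linarith)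
    linarith

/-- the small case -/
theorem small {a b B : ℕ} (hb : 1 ≤ b) (hB : b ≤ B) :
    ((2 : ℝ) ^ B + 1)⁻¹ ≤ |b * Real.log 2 - a * Real.log 3| := by
  have hne : 2 ^ b ≠ 3 ^ a := by
    intro h
    have h1 : Even (2 ^ b) := (even_two).pow_of_ne_zero (by omega)
    have h2 : Odd (3 ^ a) := Odd.pow (by decide)
    rw [h] at h1
    exact (Nat.not_even_iff_odd.2 h2) h1
  have h := log_diff (P := 2 ^ b) (Q := 3 ^ a) (by positivity) (by positivity) hne
  push_cast at h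
  rw [Real.log_pow, Real.log_pow] at h
  refine le_trans ?_ h
  apply inv_anti₀ (by positivity)
  have : (2 : ℝ) ^ b ≤ 2 ^ B := pow_le_pow_right₀ (by norm_num) hB
  linarith

theorem large (hLCP : Stmt_LCP) {a b c : ℕ} (hcop : Nat.Coprime a b) (hb : 3 ^ 20 < b)
    (hbc : b ≤ c) (hc : 300000 * (Real.log c + 1) ^ 8 ≤ Real.sqrt c) :
    Real.exp (-Real.sqrt c) ≤ |b * Real.log 2 - a * Real.log 3| := by
  have hb1 : 1 < b := by
    have : 1 ≤ 3 ^ 20 := Nat.one_le_pow _ _ (by norm_num)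
    omega
  set n := Nat.clog 3 b with hn
  have h1 : b ≤ 3 ^ n := Nat.le_pow_clog (by norm_num) b
  have h2 : 3 ^ (n - 1) < b := Nat.pow_pred_clog_lt_self (by norm_num) hb1
  have h3 : 20 < n := by
    have : 3 ^ 20 < 3 ^ n := lt_of_lt_of_le hb h1
    exact (Nat.pow_lt_pow_iff_right (by norm_num)).1 this
  refine le_trans ?_ (hLCP n a b h3.le hcop h2 h1)
  have hlog3 : (1 : ℝ) ≤ Real.log 3 := by
    rw [Real.le_log_iff_exp_le (by norm_num)]
    exact Real.exp_one_lt_d9.le.trans (by norm_num)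
  have hlog3' : Real.log 3 ≤ 2 := by
    have := Real.log_le_sub_one_of_pos (show (0 : ℝ) < 3 by norm_num)
    linarith
  have hbR : (0 : ℝ) < b := by exact_mod_cast (by omega : 0 < b)
  have h4 : (n : ℝ) ≤ Real.log c + 1 := by
    have h5 : ((3 : ℝ) ^ (n - 1)) ≤ b := by exact_mod_cast h2.le
    have h6 := Real.log_le_log (by positivity) h5
    rw [Real.log_pow] at h6
    have h7 : Real.log b ≤ Real.log c := Real.log_le_log hbR (by exact_mod_cast hbc)
    have h8 : (((n - 1 : ℕ) : ℝ)) = n - 1 := by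
      rw [Nat.cast_sub (by omega)]
      simp
    rw [h8] at h6
    have h9 : (0 : ℝ) ≤ (n : ℝ) - 1 := by
      have : (1 : ℝ) ≤ n := by exact_mod_cast (by omega : 1 ≤ n)
      linarith
    have h10 : ((n : ℝ) - 1) * 1 ≤ (n - 1) * Real.log 3 := mul_le_mul_of_nonneg_left hlog3 h9
    linarith
  have h5 : (n : ℝ) ^ 8 ≤ (Real.log c + 1) ^ 8 := pow_le_pow_left₀ (Nat.cast_nonneg n) h4 8
  rw [← Real.exp_log (show (0 : ℝ) < 3 ^ (150000 * n ^ 8) by positivity), ← Real.exp_neg,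
    Real.exp_le_exp, neg_le_neg_iff, Real.log_pow]
  push_cast
  have h6 : (0 : ℝ) ≤ (n : ℝ) ^ 8 := by positivity
  calc (150000 : ℝ) * n ^ 8 * Real.log 3 ≤ 150000 * n ^ 8 * 2 :=
        mul_le_mul_of_nonneg_left hlog3' (by positivity)
    _ = 300000 * (n : ℝ) ^ 8 := by ring
    _ ≤ 300000 * (Real.log c + 1) ^ 8 := by linarith
    _ ≤ _ := hc

theorem ev_log : ∀ᶠ c : ℕ in atTop, 300000 * (Real.log c + 1) ^ 8 ≤ Real.sqrt c := by
  have h1 : ∀ᶠ y : ℝ in atTop, ‖Real.log y ^ 8‖ ≤ (1 / (300000 * 3 ^ 8)) * ‖id y‖ :=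
    (Real.isLittleO_pow_log_id_atTop (n := 8)).def (by norm_num)
  have h2 : Tendsto (fun c : ℕ => Real.sqrt (c : ℝ)) atTop atTop :=
    Real.tendsto_sqrt_atTop.comp tendsto_natCast_atTop_atTop
  filter_upwards [h2.eventually h1, h2.eventually_ge_atTop (Real.exp 1)] with c hc hc2
  set y := Real.sqrt (c : ℝ) with hy
  have hy0 : 0 < y := lt_of_lt_of_le (Real.exp_pos 1) hc2
  have hly : 1 ≤ Real.log y := by
    rw [Real.le_log_iff_exp_le hy0]
    exact hc2
  have hlc : Real.log c = 2 * Real.log y := by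
    have : (c : ℝ) = y ^ 2 := (Real.sq_sqrt (Nat.cast_nonneg c)).symm
    rw [this, Real.log_pow]
    norm_num
  rw [hlc]
  rw [Real.norm_of_nonneg (by positivity), id, Real.norm_of_nonneg hy0.le] at hc
  have h3 : (2 * Real.log y + 1) ^ 8 ≤ (3 * Real.log y) ^ 8 :=
    pow_le_pow_left₀ (by positivity) (by linarith) 8
  rw [mul_pow] at h3
  have h4 : (300000 * 3 ^ 8 : ℝ) * Real.log y ^ 8 ≤ y := by
    have := mul_le_mul_of_nonneg_left hc (show (0 : ℝ) ≤ 300000 * 3 ^ 8 by norm_num)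
    rw [← mul_assoc, mul_one_div_cancel (by norm_num), one_mul] at this
    exact this
  calc (300000 : ℝ) * (2 * Real.log y + 1) ^ 8 ≤ 300000 * (3 ^ 8 * Real.log y ^ 8) := by linarith
    _ = (300000 * 3 ^ 8 : ℝ) * Real.log y ^ 8 := by ring
    _ ≤ y := h4

theorem ev_exp {ε : ℝ} (hε : 0 < ε) : ∀ᶠ c : ℕ in atTop, Real.exp (-Real.sqrt c) ≤ ε := by
  have h2 : Tendsto (fun c : ℕ => Real.sqrt (c : ℝ)) atTop atTop :=
    Real.tendsto_sqrt_atTop.comp tendsto_natCast_atTop_atTop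
  have h3 := (Real.tendsto_exp_neg_atTop_nhds_zero).comp h2
  exact (h3.eventually (ge_mem_nhds hε))

end LGN_

theorem lgn_proof (hLCP : Stmt_LCP) : Stmt_LGN := by
  obtain ⟨B, hB⟩ : ∃ B : ℕ, B = 3 ^ 20 := ⟨_, rfl⟩
  have hε : (0 : ℝ) < ((2 : ℝ) ^ B + 1)⁻¹ := by positivity
  obtain ⟨b₁, h₁⟩ := eventually_atTop.1 LGN_.ev_log
  obtain ⟨b₂, h₂⟩ := eventually_atTop.1 (LGN_.ev_exp hε)
  refine ⟨max (max b₁ b₂) 1, fun b hb a => ?_⟩
  have hb1 : 1 ≤ b := (le_max_right _ _).trans hb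
  have hbb1 : b₁ ≤ b := ((le_max_left _ _).trans (le_max_left _ _)).trans hb
  have hbb2 : b₂ ≤ b := ((le_max_right _ _).trans (le_max_left _ _)).trans hb
  have hg : 0 < Nat.gcd a b := Nat.gcd_pos_of_pos_right _ (by omega)
  set g := Nat.gcd a b with hgdef
  obtain ⟨a', ha'⟩ : g ∣ a := Nat.gcd_dvd_left a b
  obtain ⟨b', hb'⟩ : g ∣ b := Nat.gcd_dvd_right a b
  have hcop : Nat.Coprime a' b' := by
    have h := Nat.coprime_div_gcd_div_gcd (m := a) (n := b) hg
    rw [← hgdef] at h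
    rw [ha', hb', Nat.mul_div_cancel_left _ hg, Nat.mul_div_cancel_left _ hg] at h
    exact h
  have hb'1 : 1 ≤ b' := by
    rcases Nat.eq_zero_or_pos b' with h | h
    · rw [h, mul_zero] at hb'
      omega
    · exact h
  have hb'b : b' ≤ b := by
    rw [hb']
    exact Nat.le_mul_of_pos_left _ hg
  have hgR : (1 : ℝ) ≤ g := by exact_mod_cast hg
  have hred : |(b' : ℝ) * Real.log 2 - a' * Real.log 3| ≤ |(b : ℝ) * Real.log 2 - a * Real.log 3| := by
    have e1 : (b : ℝ) * Real.log 2 - a * Real.log 3 =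
        g * ((b' : ℝ) * Real.log 2 - a' * Real.log 3) := by
      have ea : (a : ℝ) = g * a' := by exact_mod_cast ha'
      have eb : (b : ℝ) = g * b' := by exact_mod_cast hb'
      rw [ea, eb]
      ring
    rw [e1, abs_mul, abs_of_pos (by linarith : (0 : ℝ) < g)]
    exact le_mul_of_one_le_left (abs_nonneg _) hgR
  refine le_trans ?_ hred
  by_cases hcase : b' ≤ B
  · exact (h₂ b hbb2).trans (LGN_.small hb'1 hcase)
  · push Not at hcase
    rw [hB] at hcase
    exact LGN_.large hLCP hcop hcase hb'b (h₁ b hbb1)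

end Pool.Agent.CYC
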