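import Pool.Agent.CYC.Stmts

/-!
# LMN: the least element of a cycle
-/

set_option autoImplicit false

namespace Pool.Agent.CYC

namespace LMN_

theorem log_le_sqrt {x : ℝ} (hx : 0 < x) : Real.log x ≤ Real.sqrt x := by
  have hs : 0 < Real.sqrt x := Real.sqrt_pos.2 hx
  have h1 : Real.log x = 2 * Real.log (Real.sqrt x) := by
    have h := Real.log_sqrt hx.le
    linarith
  have h2 : Real.log (Real.sqrt x) = Real.log (Real.sqrt x / 2) + Real.log 2 := by
    rw [← Real.log_mul (by positivity) (by norm_num)]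
    congr 1
    ring
  have h3 := Real.log_le_sub_one_of_pos (half_pos hs)
  have h4 := Real.log_two_lt_d9
  linarith

end LMN_

open LMN_

theorem lmn_proof (hLGN : Stmt_LGN) (hCYS : Stmt_CYS) (hPRD : Stmt_PRD) : Stmt_LMN := by
  obtain ⟨b₀, hb₀⟩ := hLGN
  refine ⟨2 * b₀ + 2, ?_⟩
  intro Z hZ hN x hx hmin
  obtain ⟨-, h1, h2⟩ := hCYS Z hZ
  obtain ⟨h3, h4, -⟩ := h2 x hx
  obtain ⟨N, hNdef⟩ : ∃ N, N = Z.ncard := ⟨_, rfl⟩
  rw [← hNdef] at hN h1 h3 h4 ⊢
  by_cases hx1 : |(x : ℝ)| ≤ 1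
  · have := Real.log_nonpos (abs_nonneg _) hx1
    have h5 := Real.sqrt_nonneg (N : ℝ)
    linarith
  · push Not at hx1
    have hK : ((x.natAbs : ℕ) : ℤ) = |x| := Int.natCast_natAbs x
    have hKr : ((x.natAbs : ℕ) : ℝ) = |(x : ℝ)| := by
      rw [← Int.cast_abs, ← hK]
      simp
    have hK2 : 2 ≤ x.natAbs := by
      have : (1 : ℝ) < ((x.natAbs : ℕ) : ℝ) := by rw [hKr]; exact hx1
      exact_mod_cast this
    obtain ⟨h5, h6, h7⟩ := hPRD x N x.natAbs h1 h3 hK2 (by
      intro t ht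
      rw [hK]
      apply hmin
      rw [h4]
      exact ⟨t, ht, rfl⟩)
    have h8 := hb₀ (evs x N) (by omega) (ods x N)
    have h9 := h8.trans h7
    have hK0 : (0 : ℝ) < ((x.natAbs : ℕ) : ℝ) := by
      have : 0 < x.natAbs := by omega
      exact_mod_cast this
    have hN0 : (0 : ℝ) < (N : ℝ) := by
      have : 0 < N := by omega
      exact_mod_cast this
    rw [le_div_iff₀ hK0] at h9
    have h10 := Real.log_le_log (by positivity) h9
    rw [Real.log_mul (Real.exp_pos _).ne' hK0.ne', Real.log_exp, hKr] at h10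
    have h11 : Real.sqrt (evs x N) ≤ Real.sqrt N := by
      apply Real.sqrt_le_sqrt
      have : evs x N ≤ N := by omega
      exact_mod_cast this
    have h12 := log_le_sqrt hN0
    linarith

end Pool.Agent.CYC
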