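import Pool.Agent.CYC.Stmts

/-!
# Squad CYC, module LNU: numerical inequalities
-/

set_option autoImplicit false

namespace Pool.Agent.CYC

namespace LNU_

theorem f2 (n : ℕ) (hn : 20 ≤ n) : 900 * n ^ 4 ≤ 3 ^ n := by
  induction n, hn using Nat.le_induction with
  | base => norm_num
  | succ n hn ih =>
    have h1 : (n + 1) ^ 4 ≤ 3 * n ^ 4 := by
      have h2 : 20 * n ^ 3 ≤ n ^ 4 := by
        calc 20 * n ^ 3 ≤ n * n ^ 3 := Nat.mul_le_mul_right _ hn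
          _ = n ^ 4 := by ring
      have h3 : n ^ 2 ≤ n ^ 3 := Nat.pow_le_pow_right (by omega) (by norm_num)
      have h4 : n ^ 1 ≤ n ^ 3 := Nat.pow_le_pow_right (by omega) (by norm_num)
      have h5 : 1 ≤ n ^ 3 := Nat.one_le_pow _ _ (by omega)
      have h6 : (n + 1) ^ 4 = n ^ 4 + 4 * n ^ 3 + 6 * n ^ 2 + 4 * n ^ 1 + 1 := by ring
      omega
    calc 900 * (n + 1) ^ 4 ≤ 900 * (3 * n ^ 4) := Nat.mul_le_mul_left _ h1
      _ = 3 * (900 * n ^ 4) := by ring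
      _ ≤ 3 * 3 ^ n := Nat.mul_le_mul_left _ ih
      _ = 3 ^ (n + 1) := by ring

theorem f1 (n : ℕ) (hn : 20 ≤ n) (c : ℕ) (hc : c ≤ 900) : c * n ^ 2 ≤ 3 ^ n := by
  refine le_trans ?_ (f2 n hn)
  exact Nat.mul_le_mul hc (Nat.pow_le_pow_right (by omega) (by norm_num))

theorem mul3 {a b x y : ℕ} (h1 : a ≤ 3 ^ x) (h2 : b ≤ 3 ^ y) : a * b ≤ 3 ^ (x + y) := by
  rw [pow_add]
  exact Nat.mul_le_mul h1 h2

theorem pow3 {a x : ℕ} (h : a ≤ 3 ^ x) (k : ℕ) : a ^ k ≤ 3 ^ (x * k) := by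
  rw [pow_mul]
  exact Nat.pow_le_pow_left h k

theorem fac (n : ℕ) (hn : 20 ≤ n) : (900 * n ^ 4).factorial ≤ 3 ^ (n * (900 * n ^ 4)) := by
  refine (Nat.factorial_le_pow _).trans ?_
  exact pow3 (f2 n hn) _

end LNU_

open LNU_ in
theorem lnu_proof : Stmt_LNU := by
  intro n hn
  have n4 : 1 ≤ n ^ 4 := Nat.one_le_pow _ _ (by omega)
  have n8 : 20 * n ^ 7 ≤ n ^ 8 := by
    calc 20 * n ^ 7 ≤ n * n ^ 7 := Nat.mul_le_mul_right _ hn
      _ = n ^ 8 := by ring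
  have n45 : n ^ 4 ≤ n ^ 7 := Nat.pow_le_pow_right (by omega) (by norm_num)
  have n57 : n ^ 5 ≤ n ^ 7 := Nat.pow_le_pow_right (by omega) (by norm_num)
  have n17 : 1 ≤ n ^ 7 := Nat.one_le_pow _ _ (by omega)
  have e7 : n * (900 * n ^ 2 * (900 * n ^ 2) * n ^ 2) = 810000 * n ^ 7 := by ring
  have e5 : n * (900 * n ^ 4) = 900 * n ^ 5 := by ring
  refine ⟨?_, ?_, ?_⟩
  · refine (mul3 (mul3 (mul3 (fac n hn) (pow3 (mul3 (pow3 (f1 n hn 186 (by norm_num)) _)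
      le_rfl) _)) le_rfl) (show 2 ≤ 3 ^ 1 by norm_num)).trans ?_
    apply Nat.pow_le_pow_right (by norm_num)
    rw [Nat.le_div_iff_mul_le (by norm_num), e7, e5]
    have e6 : (n * (900 * n ^ 2) + 186 * n ^ 4) * (900 * n ^ 4) = 810000 * n ^ 7 + 167400 * n ^ 8 := by
      ring
    rw [e6]
    obtain ⟨k, hk⟩ : ∃ k, 900 * n ^ 4 = k + 1 := ⟨900 * n ^ 4 - 1, by omega⟩
    have h1 : 900 * n ^ 4 * (900 * n ^ 4 - 1) + 900 * n ^ 4 = 810000 * n ^ 8 := by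
      have h2 : 900 * n ^ 4 * (900 * n ^ 4) = 810000 * n ^ 8 := by ring
      rw [← h2, hk, Nat.add_sub_cancel]
      ring
    omega
  · refine (mul3 (mul3 (mul3 (mul3 (fac n hn) (pow3 (mul3 (pow3 (f1 n hn 62 (by norm_num)) _)
      le_rfl) _)) (pow3 (show 2 ≤ 3 ^ 1 by norm_num) _)) (show 4 ≤ 3 ^ 2 by norm_num))
      le_rfl).trans ?_
    apply Nat.pow_le_pow_right (by norm_num)
    rw [e7, e5]
    have e6 : (n * (900 * n ^ 2) + 62 * n ^ 4) * (900 * n ^ 4) = 810000 * n ^ 7 + 55800 * n ^ 8 := by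
      ring
    rw [e6]
    omega
  · have h1 := f2 n hn
    obtain ⟨m, rfl⟩ : ∃ m, n = m + 1 := ⟨n - 1, by omega⟩
    rw [Nat.add_sub_cancel]
    rw [pow_succ 3 m] at h1
    omega

end Pool.Agent.CYC
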