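import Pool.Agent.CYC.Stmts

set_option autoImplicit false

namespace Pool.Agent.CYC

theorem mnr_proof : Stmt_MNR := by
  intro N ι _ A hA
  classical
  have hr : (Matrix.of A).rank = N := by
    have := LinearIndependent.rank_matrix (M := Matrix.of A) hA
    rw [this, Fintype.card_fin]
  have hspan : Submodule.span ℝ (Set.range (Matrix.of A).col) = ⊤ := by
    apply Submodule.eq_top_of_finrank_eq
    rw [← Matrix.rank_eq_finrank_span_cols, hr, Module.finrank_fin_fun]
  obtain ⟨b, hbs, hbspan, hbli⟩ := exists_linearIndependent ℝ (Set.range (Matrix.of A).col)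
  have hb : ⊤ ≤ Submodule.span ℝ (Set.range ((↑) : b → Fin N → ℝ)) := by
    rw [Subtype.range_coe, hbspan, hspan]
  let B := Module.Basis.mk hbli hb
  haveI : Fintype b := FiniteDimensional.fintypeBasisIndex B
  have hcard : Fintype.card b = N := by
    have := Module.finrank_eq_card_basis B
    rw [← this, Module.finrank_fin_fun]
  let e : Fin N ≃ b := (Fintype.equivFinOfCardEq hcard).symm
  have hc : ∀ j : Fin N, ∃ k : ι, (Matrix.of A).col k = (e j : Fin N → ℝ) := fun j => hbs (e j).2
  choose c hc using hc
  refine ⟨c, ?_⟩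
  have hli : LinearIndependent ℝ (Matrix.of fun i j : Fin N => A i (c j)).col := by
    have h1 : (Matrix.of fun i j : Fin N => A i (c j)).col = (fun x : b => (x : Fin N → ℝ)) ∘ e := by
      funext j
      rw [Function.comp_apply, ← hc j]
      rfl
    rw [h1]
    exact hbli.comp e e.injective
  have hu := Matrix.linearIndependent_cols_iff_isUnit.mp hli
  rw [Matrix.isUnit_iff_isUnit_det] at hu
  exact hu.ne_zero

end Pool.Agent.CYC
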