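import Pool.Agent.CYC.Stmts

set_option autoImplicit false

namespace Pool.Agent.CYC

namespace PDF_

/-- a finite set of natural numbers of cardinality `N` has sum at least `N (N - 1) / 2` -/
theorem card_mul_le (N : ℕ) : ∀ s : Finset ℕ, s.card = N → N * (N - 1) ≤ 2 * ∑ x ∈ s, x := by
  induction N with
  | zero => intro s _; simp
  | succ N ih =>
    intro s hs
    have hne : s.Nonempty := by
      rw [← Finset.card_pos]; omega
    have hM : s.max' hne ∈ s := s.max'_mem hne
    have hcard : (s.erase (s.max' hne)).card = N := by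
      rw [Finset.card_erase_of_mem hM]; omega
    have h1 := ih _ hcard
    have h2 : s ⊆ Finset.range (s.max' hne + 1) := by
      intro x hx
      rw [Finset.mem_range]
      have := s.le_max' x hx
      omega
    have h3 := Finset.card_le_card h2
    rw [Finset.card_range, hs] at h3
    have h4 : s.max' hne + ∑ x ∈ s.erase (s.max' hne), x = ∑ x ∈ s, x :=
      Finset.add_sum_erase s (fun x => x) hM
    rw [← h4]
    have h5 : (N + 1) * (N + 1 - 1) = N * (N - 1) + 2 * N := by
      rcases N with _ | N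
      · simp
      · simp only [Nat.add_sub_cancel]; ring
    rw [h5]
    omega

theorem sum_inj {N D : ℕ} (μ : Fin N → Fin D) (hμ : Function.Injective μ) :
    N * (N - 1) / 2 ≤ ∑ i, (μ i : ℕ) := by
  have hinj : Function.Injective fun i : Fin N => (μ i : ℕ) :=
    fun a b h => hμ (Fin.ext h)
  have h1 : ∑ x ∈ Finset.univ.image (fun i : Fin N => (μ i : ℕ)), x = ∑ i, (μ i : ℕ) :=
    Finset.sum_image (fun a _ b _ h => hinj h)
  have h2 : (Finset.univ.image (fun i : Fin N => (μ i : ℕ))).card = N := by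
    rw [Finset.card_image_of_injective _ hinj, Finset.card_univ, Fintype.card_fin]
  have h3 := card_mul_le N _ h2
  rw [h1] at h3
  omega

/-- expansion of one product of sums -/
theorem prod_sum_perm {N D : ℕ} (f : Fin N → Fin D → ℝ) (z : Fin N → ℝ)
    (σ : Equiv.Perm (Fin N)) :
    ∏ j, ∑ m, f (σ j) m * z j ^ (m : ℕ) =
      ∑ μ : Fin N → Fin D, (∏ i, f i (μ i)) * ∏ j, z j ^ (μ (σ j) : ℕ) := by
  rw [Finset.prod_univ_sum, Fintype.piFinset_univ]
  rw [← Equiv.sum_comp (Equiv.arrowCongr σ.symm (Equiv.refl (Fin D)))]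
  refine Finset.sum_congr rfl fun μ _ => ?_
  rw [Finset.prod_mul_distrib]
  congr 1
  exact Equiv.prod_comp σ (fun i => f i (μ i))

theorem det_expand {N D : ℕ} (f : Fin N → Fin D → ℝ) (z : Fin N → ℝ) :
    (Matrix.of fun i j : Fin N => ∑ m, f i m * z j ^ (m : ℕ)).det =
      ∑ μ : Fin N → Fin D, (∏ i, f i (μ i)) *
        (Matrix.of fun i j : Fin N => z j ^ (μ i : ℕ)).det := by
  simp only [Matrix.det_apply', Matrix.of_apply]
  simp only [prod_sum_perm, Finset.mul_sum]
  rw [Finset.sum_comm]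
  refine Finset.sum_congr rfl fun μ _ => Finset.sum_congr rfl fun σ _ => ?_
  ring

theorem det_bound {N D : ℕ} (z : Fin N → ℝ) (ρ : ℝ) (hz : ∀ j, 0 ≤ z j) (hρ : 1 ≤ ρ)
    (μ : Fin N → Fin D) :
    |(Matrix.of fun i j : Fin N => z j ^ (μ i : ℕ)).det| * ρ ^ (N * (N - 1) / 2) ≤
      ∑ σ : Equiv.Perm (Fin N), ∏ j, (ρ * z j) ^ (μ (σ j) : ℕ) := by
  have hρ0 : 0 ≤ ρ := by linarith
  by_cases hμ : Function.Injective μ
  · have h1 : ∀ σ : Equiv.Perm (Fin N), ∏ j, (ρ * z j) ^ (μ (σ j) : ℕ) =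
        ρ ^ (∑ i, (μ i : ℕ)) * ∏ j, z j ^ (μ (σ j) : ℕ) := by
      intro σ
      simp only [mul_pow]
      rw [Finset.prod_mul_distrib, Finset.prod_pow_eq_pow_sum]
      congr 2
      exact Equiv.sum_comp σ (fun i => (μ i : ℕ))
    simp only [h1]
    rw [← Finset.mul_sum, mul_comm]
    apply mul_le_mul (pow_le_pow_right₀ hρ (sum_inj μ hμ)) _ (abs_nonneg _) (by positivity)
    rw [Matrix.det_apply']
    refine (Finset.abs_sum_le_sum_abs _ _).trans (Finset.sum_le_sum fun σ _ => ?_)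
    rw [abs_mul]
    have h2 : |((Equiv.Perm.sign σ : ℤ) : ℝ)| = 1 := by
      rcases Int.units_eq_one_or (Equiv.Perm.sign σ) with h | h <;> simp [h]
    rw [h2, one_mul]
    simp only [Matrix.of_apply]
    rw [abs_of_nonneg]
    exact Finset.prod_nonneg fun j _ => pow_nonneg (hz j) _
  · have h0 : (Matrix.of fun i j : Fin N => z j ^ (μ i : ℕ)).det = 0 := by
      simp only [Function.Injective, not_forall] at hμ
      obtain ⟨a, b, hab, hne⟩ := hμ
      apply Matrix.det_zero_of_row_eq hne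
      funext j
      simp only [Matrix.of_apply, hab]
    rw [h0, abs_zero, zero_mul]
    exact Finset.sum_nonneg fun σ _ => Finset.prod_nonneg fun j _ =>
      pow_nonneg (mul_nonneg hρ0 (hz j)) _

end PDF_

theorem pdf_proof : Stmt_PDF := by
  intro N D f z ρ hf hz hρ
  have hρ0 : 0 ≤ ρ := by linarith
  rw [PDF_.det_expand]
  have h1 : |∑ μ : Fin N → Fin D, (∏ i, f i (μ i)) *
      (Matrix.of fun i j : Fin N => z j ^ (μ i : ℕ)).det| * ρ ^ (N * (N - 1) / 2) ≤
      ∑ μ : Fin N → Fin D, (∏ i, f i (μ i)) *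
        (|(Matrix.of fun i j : Fin N => z j ^ (μ i : ℕ)).det| * ρ ^ (N * (N - 1) / 2)) := by
    refine (mul_le_mul_of_nonneg_right (Finset.abs_sum_le_sum_abs _ _)
      (pow_nonneg hρ0 _)).trans (le_of_eq ?_)
    rw [Finset.sum_mul]
    refine Finset.sum_congr rfl fun μ _ => ?_
    rw [abs_mul, abs_of_nonneg (Finset.prod_nonneg fun i _ => hf i (μ i)), mul_assoc]
  refine h1.trans ?_
  simp only [PDF_.prod_sum_perm]
  rw [Finset.sum_comm]
  refine Finset.sum_le_sum fun μ _ => ?_
  rw [← Finset.mul_sum]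
  exact mul_le_mul_of_nonneg_left (PDF_.det_bound z ρ hz hρ μ)
    (Finset.prod_nonneg fun i _ => hf i (μ i))

end Pool.Agent.CYC
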