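import Pool.Agent.CYC.Stmts

/-!
# PRD: the product formula for a cycle
-/

set_option autoImplicit false

namespace Pool.Agent.CYC

namespace PRD_

/-- one step of the trajectory -/
theorem step (z : ℤ) (K : ℕ) (hK : 2 ≤ K) (hz : (K : ℤ) ≤ |z|) :
    ∃ e : ℝ, |e| ≤ 1 / K ∧
      Real.log |((C z : ℤ) : ℝ)| - Real.log |(z : ℝ)| =
        if z % 2 = 0 then -Real.log 2 else Real.log 3 + e := by
  have hK0 : (0 : ℝ) < K := by
    have : 0 < K := by omega
    exact_mod_cast this
  have hz0 : (z : ℝ) ≠ 0 := by
    intro h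
    have h2 : z = 0 := by exact_mod_cast h
    rw [h2, abs_zero] at hz
    omega
  by_cases h : z % 2 = 0
  · refine ⟨0, by rw [abs_zero]; positivity, ?_⟩
    rw [if_pos h]
    have hC : C z = z / 2 := by unfold C; rw [if_pos h]
    obtain ⟨w, hw⟩ : (2 : ℤ) ∣ z := Int.dvd_of_emod_eq_zero h
    have hCw : C z = w := by rw [hC, hw]; simp
    have hw0 : (w : ℝ) ≠ 0 := by
      intro h2
      apply hz0
      rw [hw]
      push_cast
      rw [h2, mul_zero]
    rw [hCw, hw]
    push_cast
    rw [abs_mul, Real.log_mul (by norm_num) (abs_ne_zero.2 hw0), abs_of_pos (by norm_num : (0 : ℝ) < 2)]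
    ring
  · have hC : C z = 3 * z + 1 := by unfold C; rw [if_neg h]
    obtain ⟨u, hu⟩ : ∃ u : ℝ, u = 1 / (3 * z) := ⟨_, rfl⟩
    have hzK : (K : ℝ) ≤ |(z : ℝ)| := by exact_mod_cast hz
    have hua : |u| ≤ 1 / (3 * K) := by
      rw [hu, abs_div, abs_one, abs_mul, abs_of_pos (by norm_num : (0 : ℝ) < 3)]
      exact one_div_le_one_div_of_le (by positivity) (by linarith)
    have hK2 : (2 : ℝ) ≤ K := by exact_mod_cast hK
    have hu6 : 1 / (3 * (K : ℝ)) ≤ 1 / 6 :=
      one_div_le_one_div_of_le (by norm_num) (by linarith)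
    have hub := abs_le.1 (hua.trans hu6)
    have hpos : 0 < 1 + u := by linarith [hub.1]
    refine ⟨Real.log (1 + u), ?_, ?_⟩
    · have l1 := Real.log_le_sub_one_of_pos hpos
      have l2 := Real.one_sub_inv_le_log_of_pos hpos
      have e1 : (1 : ℝ) / K = 3 * (1 / (3 * K)) := by field_simp
      have hua' := abs_le.1 hua
      rw [abs_le, e1]
      constructor
      · have l3 : 1 - (1 + u)⁻¹ = u / (1 + u) := by field_simp; ring
        rw [l3] at l2
        have l4 : -(3 * (1 / (3 * (K : ℝ)))) ≤ u / (1 + u) := by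
          rw [le_div_iff₀ hpos]
          have l5 : 0 < 1 / (3 * (K : ℝ)) := by positivity
          nlinarith [hub.1, hua'.1]
        linarith
      · have l5 : 0 < 1 / (3 * (K : ℝ)) := by positivity
        linarith [hua'.2]
    · rw [if_neg h, hC]
      have e2 : (((3 * z + 1 : ℤ)) : ℝ) = 3 * z * (1 + u) := by
        rw [hu]
        push_cast
        field_simp
      rw [e2, abs_mul, abs_mul, abs_of_pos hpos, abs_of_pos (by norm_num : (0 : ℝ) < 3),
        Real.log_mul (mul_ne_zero (by norm_num) (abs_ne_zero.2 hz0)) hpos.ne',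
        Real.log_mul (by norm_num) (abs_ne_zero.2 hz0)]
      ring

/-- the number of even and odd terms -/
theorem count (x : ℤ) (N : ℕ) : evs x N + ods x N = N := by
  unfold evs ods
  have h := Finset.card_filter_add_card_filter_not (s := Finset.range N)
    (fun t => C^[t] x % 2 = 0)
  rw [Finset.card_range] at h
  exact h

end PRD_

open PRD_ in
theorem prd_proof : Stmt_PRD := by
  intro x N K hN hx hK hb
  refine ⟨count x N, ?_, ?_⟩
  · -- an injective map from the odd to the even places
    unfold ods evs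
    refine Finset.card_le_card_of_injOn (fun t => (t + 1) % N) ?_ ?_
    · intro t ht
      rw [Finset.mem_coe, Finset.mem_filter, Finset.mem_range] at ht
      obtain ⟨ht1, ht2⟩ := ht
      rw [Finset.mem_coe, Finset.mem_filter, Finset.mem_range]
      refine ⟨Nat.mod_lt _ (by omega), ?_⟩
      have h1 : C^[(t + 1) % N] x = C^[t + 1] x := by
        rcases Nat.lt_or_ge (t + 1) N with h | h
        · rw [Nat.mod_eq_of_lt h]
        · have h2 : t + 1 = N := by omega
          rw [h2, Nat.mod_self, hx, Function.iterate_zero, id_eq]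
      change C^[(t + 1) % N] x % 2 = 0
      rw [h1, Function.iterate_succ_apply']
      have h3 : C (C^[t] x) = 3 * C^[t] x + 1 := if_neg ht2
      rw [h3]
      omega
    · intro s hs t ht hst
      rw [Finset.mem_coe, Finset.mem_filter, Finset.mem_range] at hs ht
      change (s + 1) % N = (t + 1) % N at hst
      rcases Nat.lt_or_ge (s + 1) N with h | h
      · rcases Nat.lt_or_ge (t + 1) N with h' | h'
        · rw [Nat.mod_eq_of_lt h, Nat.mod_eq_of_lt h'] at hst
          omega
        · have h2 : t + 1 = N := by omega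
          rw [Nat.mod_eq_of_lt h, h2, Nat.mod_self] at hst
          omega
      · have h2 : s + 1 = N := by omega
        rcases Nat.lt_or_ge (t + 1) N with h' | h'
        · rw [Nat.mod_eq_of_lt h', h2, Nat.mod_self] at hst
          omega
        · omega
  · have hst : ∀ t : ℕ, ∃ e : ℝ, |e| ≤ 1 / K ∧ (t < N →
        Real.log |((C^[t + 1] x : ℤ) : ℝ)| - Real.log |((C^[t] x : ℤ) : ℝ)| =
          if C^[t] x % 2 = 0 then -Real.log 2 else Real.log 3 + e) := by
      intro t
      by_cases ht : t < N
      · obtain ⟨e, he1, he2⟩ := step (C^[t] x) K hK (hb t ht)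
        refine ⟨e, he1, fun _ => ?_⟩
        rw [Function.iterate_succ_apply']
        exact he2
      · refine ⟨0, ?_, fun h => absurd h ht⟩
        rw [abs_zero]
        positivity
    choose e he1 he2 using hst
    have hsum : ∑ t ∈ Finset.range N, (Real.log |((C^[t + 1] x : ℤ) : ℝ)| -
        Real.log |((C^[t] x : ℤ) : ℝ)|) = 0 := by
      rw [Finset.sum_range_sub (fun t => Real.log |((C^[t] x : ℤ) : ℝ)|), hx,
        Function.iterate_zero, id_eq, sub_self]
    have hsum2 : ∑ t ∈ Finset.range N, (Real.log |((C^[t + 1] x : ℤ) : ℝ)| -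
        Real.log |((C^[t] x : ℤ) : ℝ)|) = ∑ t ∈ Finset.range N,
          (if C^[t] x % 2 = 0 then -Real.log 2 else Real.log 3 + e t) :=
      Finset.sum_congr rfl fun t ht => he2 t (Finset.mem_range.1 ht)
    rw [hsum2, Finset.sum_ite, Finset.sum_const, Finset.sum_add_distrib, Finset.sum_const,
      nsmul_eq_mul, nsmul_eq_mul] at hsum
    have hE : (evs x N : ℝ) = ((Finset.range N).filter fun t => C^[t] x % 2 = 0).card := rfl
    have hO : (ods x N : ℝ) = ((Finset.range N).filter fun t => ¬ C^[t] x % 2 = 0).card := rfl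
    have hval : (evs x N : ℝ) * Real.log 2 - (ods x N : ℝ) * Real.log 3 =
        ∑ t ∈ (Finset.range N).filter (fun t => ¬ C^[t] x % 2 = 0), e t := by
      rw [hE, hO]
      linarith
    rw [hval]
    refine (Finset.abs_sum_le_sum_abs _ _).trans ?_
    have h3 : ∑ t ∈ (Finset.range N).filter (fun t => ¬ C^[t] x % 2 = 0), |e t| ≤
        ∑ t ∈ Finset.range N, (1 / K : ℝ) := by
      refine (Finset.sum_le_sum fun t _ => he1 t).trans ?_
      refine Finset.sum_le_sum_of_subset_of_nonneg (Finset.filter_subset _ _) ?_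
      intro t _ _
      positivity
    refine h3.trans ?_
    rw [Finset.sum_const, Finset.card_range, nsmul_eq_mul, mul_one_div]

end Pool.Agent.CYC
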