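import Pool.Agent.CYC.Stmts

set_option autoImplicit false

namespace Pool.Agent.CYC

namespace PTB_

theorem prod_bd {ι : Type} [DecidableEq ι] (s : Finset ι) (e : ι → ℝ) (θ : ℝ) (h0 : 0 ≤ θ) (h1 : θ ≤ 1)
    (he : ∀ i, |e i| ≤ θ) : |∏ i ∈ s, (1 + e i) - 1| ≤ (2 ^ s.card - 1) * θ := by
  induction s using Finset.induction_on with
  | empty => simp
  | insert a s ha ih =>
    rw [Finset.prod_insert ha, Finset.card_insert_of_notMem ha]
    have e1 : (1 + e a) * ∏ i ∈ s, (1 + e i) - 1 = (1 + e a) * (∏ i ∈ s, (1 + e i) - 1) + e a := by ring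
    rw [e1]
    have h2 : |1 + e a| ≤ 2 := by
      have := abs_le.mp (he a)
      rw [abs_le]
      constructor <;> linarith
    calc |(1 + e a) * (∏ i ∈ s, (1 + e i) - 1) + e a|
        ≤ |(1 + e a) * (∏ i ∈ s, (1 + e i) - 1)| + |e a| := abs_add_le _ _
      _ = |1 + e a| * |∏ i ∈ s, (1 + e i) - 1| + |e a| := by rw [abs_mul]
      _ ≤ 2 * ((2 ^ s.card - 1) * θ) + θ := by
          refine add_le_add (mul_le_mul h2 ih (abs_nonneg _) (by norm_num)) (he a)
      _ = (2 ^ (s.card + 1) - 1) * θ := by ring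

end PTB_

open PTB_ in
theorem ptb_proof : Stmt_PTB := by
  intro N A E H θ hH h0 h1 hA hE
  rw [Matrix.det_apply', Matrix.det_apply', ← Finset.sum_sub_distrib]
  have hterm : ∀ σ : Equiv.Perm (Fin N),
      |((Equiv.Perm.sign σ : ℤ) : ℝ) * ∏ i, (Matrix.of fun i j : Fin N => A i j * (1 + E i j)) (σ i) i -
        ((Equiv.Perm.sign σ : ℤ) : ℝ) * ∏ i, A (σ i) i| ≤ H ^ N * (2 ^ N * θ) := by
    intro σ
    have e1 : ((Equiv.Perm.sign σ : ℤ) : ℝ) * ∏ i, (Matrix.of fun i j : Fin N => A i j * (1 + E i j)) (σ i) i -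
        ((Equiv.Perm.sign σ : ℤ) : ℝ) * ∏ i, A (σ i) i =
        ((Equiv.Perm.sign σ : ℤ) : ℝ) * ((∏ i, A (σ i) i) * (∏ i, (1 + E (σ i) i) - 1)) := by
      simp only [Matrix.of_apply, Finset.prod_mul_distrib]
      ring
    rw [e1, abs_mul, abs_mul]
    have hs : |((Equiv.Perm.sign σ : ℤ) : ℝ)| = 1 := by
      rcases Int.units_eq_one_or (Equiv.Perm.sign σ) with h | h <;> simp [h]
    rw [hs, one_mul]
    have hp : |∏ i, A (σ i) i| ≤ H ^ N := by
      rw [Finset.abs_prod]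
      calc ∏ i, |A (σ i) i| ≤ ∏ _i : Fin N, H :=
            Finset.prod_le_prod (fun i _ => abs_nonneg _) fun i _ => hA _ _
        _ = H ^ N := by rw [Finset.prod_const, Finset.card_univ, Fintype.card_fin]
    have hq : |∏ i, (1 + E (σ i) i) - 1| ≤ 2 ^ N * θ := by
      refine (prod_bd Finset.univ (fun i => E (σ i) i) θ h0 h1 (fun i => hE _ _)).trans ?_
      rw [Finset.card_univ, Fintype.card_fin]
      nlinarith
    exact mul_le_mul hp hq (abs_nonneg _) (by positivity)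
  calc |∑ σ : Equiv.Perm (Fin N), (((Equiv.Perm.sign σ : ℤ) : ℝ) *
          ∏ i, (Matrix.of fun i j : Fin N => A i j * (1 + E i j)) (σ i) i -
        ((Equiv.Perm.sign σ : ℤ) : ℝ) * ∏ i, A (σ i) i)|
      ≤ ∑ σ : Equiv.Perm (Fin N), |((Equiv.Perm.sign σ : ℤ) : ℝ) *
          ∏ i, (Matrix.of fun i j : Fin N => A i j * (1 + E i j)) (σ i) i -
        ((Equiv.Perm.sign σ : ℤ) : ℝ) * ∏ i, A (σ i) i| := Finset.abs_sum_le_sum_abs _ _
    _ ≤ ∑ _σ : Equiv.Perm (Fin N), H ^ N * (2 ^ N * θ) := Finset.sum_le_sum fun σ _ => hterm σ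
    _ = N.factorial * H ^ N * 2 ^ N * θ := by
        rw [Finset.sum_const, Finset.card_univ, Fintype.card_perm, Fintype.card_fin, nsmul_eq_mul]
        ring

end Pool.Agent.CYC
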