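import Pool.Agent.CYC.Stmts

/-!
# Squad CYC, module ZES: the zero estimate
-/

set_option autoImplicit false

namespace Pool.Agent.CYC

namespace ZES_

open Polynomial

theorem coeff_prod_sum {ι : Type} (s : Finset ι) (f : ι → ℝ[X]) (d : ι → ℕ)
    (h : ∀ i ∈ s, (f i).natDegree ≤ d i) :
    (∏ i ∈ s, f i).natDegree ≤ ∑ i ∈ s, d i ∧
    (∏ i ∈ s, f i).coeff (∑ i ∈ s, d i) = ∏ i ∈ s, (f i).coeff (d i) := by
  classical
  induction s using Finset.induction_on with
  | empty => simp
  | insert a s ha ih =>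
    obtain ⟨h1, h2⟩ := ih fun i hi => h i (Finset.mem_insert_of_mem hi)
    have h3 := h a (Finset.mem_insert_self _ _)
    rw [Finset.prod_insert ha, Finset.sum_insert ha, Finset.prod_insert ha]
    refine ⟨(natDegree_mul_le).trans (Nat.add_le_add h3 h1), ?_⟩
    rw [coeff_mul_add_eq_of_natDegree_le h3 h1, h2]

theorem coeff_det {N : ℕ} (D : Matrix (Fin N) (Fin N) ℝ[X]) (d : Fin N → ℕ)
    (h : ∀ i j, (D i j).natDegree ≤ d j) :
    D.det.natDegree ≤ ∑ j, d j ∧
    D.det.coeff (∑ j, d j) = (Matrix.of fun i j => (D i j).coeff (d j)).det := by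
  constructor
  · rw [Matrix.det_apply]
    apply natDegree_sum_le_of_forall_le
    intro σ _
    refine (natDegree_smul_le _ _).trans ?_
    exact (coeff_prod_sum Finset.univ (fun j => D (σ j) j) d fun j _ => h (σ j) j).1
  · rw [Matrix.det_apply, Matrix.det_apply, finsetSum_coeff]
    apply Finset.sum_congr rfl
    intro σ _
    rw [coeff_smul, (coeff_prod_sum Finset.univ (fun j => D (σ j) j) d fun j _ => h (σ j) j).2]
    rfl

theorem inj_points {M a b : ℕ} (hab : Nat.Coprime a b) (hb : 1 ≤ b) (hM : M ≤ b) :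
    Function.Injective fun p : Fin M × Fin M => (((p.1 * b + p.2 * a : ℕ)) : ℝ) := by
  rintro ⟨r, s⟩ ⟨r', s'⟩ h
  have h1 : (r * b + s * a : ℕ) = r' * b + s' * a := Nat.cast_injective (R := ℝ) h
  have h2 : ((s : ℕ) : ℤ) = s' := by
    have h3 : (b : ℤ) ∣ ((s : ℤ) - s') * a := by
      refine ⟨(r' : ℤ) - r, ?_⟩
      have h4 : ((r * b + s * a : ℕ) : ℤ) = ((r' * b + s' * a : ℕ) : ℤ) := by rw [h1]
      push_cast at h4
      linarith
    have h5 : (b : ℤ) ∣ (s : ℤ) - s' := by
      refine IsCoprime.dvd_of_dvd_mul_right ?_ h3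
      rw [Nat.isCoprime_iff_coprime]
      exact hab.symm
    have h6 := Int.eq_zero_of_abs_lt_dvd h5 (by
      have := s.2
      have := s'.2
      rw [abs_lt]
      constructor <;> omega)
    linarith
  have h3 : (s : ℕ) = s' := by exact_mod_cast h2
  rw [h3] at h1
  have h4 : (r : ℕ) * b = r' * b := by omega
  have h5 : (r : ℕ) = r' := Nat.eq_of_mul_eq_mul_right hb h4
  rw [Prod.mk.injEq]
  exact ⟨Fin.ext h5, Fin.ext h3⟩

end ZES_

open ZES_ Polynomial

theorem zes_proof : Stmt_ZES := by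
  classical
  intro K L M a b f hab hb hM hKL hf
  by_contra hne
  obtain ⟨P, hP⟩ : ∃ P : Fin L → ℝ[X], ∀ l, P l = ∑ k : Fin K, Polynomial.C (f k l) * X ^ (k : ℕ) :=
    ⟨_, fun _ => rfl⟩
  have hPc : ∀ (k : Fin K) (l : Fin L), (P l).coeff k = f k l := by
    intro k l
    rw [hP, finsetSum_coeff, Finset.sum_eq_single k]
    · simp
    · intro j _ hj
      rw [coeff_C_mul, coeff_X_pow, if_neg, mul_zero]
      intro h
      exact hj (Fin.ext h.symm)
    · intro h
      exact absurd (Finset.mem_univ _) h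
  have hPd : ∀ l, (P l).natDegree ≤ K - 1 := by
    intro l
    rw [hP]
    apply natDegree_sum_le_of_forall_le
    intro k _
    refine (natDegree_C_mul_X_pow_le _ _).trans ?_
    have := k.2
    omega
  have hPe : ∀ l x, (P l).eval x = ∑ k : Fin K, f k l * x ^ (k : ℕ) := by
    intro l x
    rw [hP, eval_finsetSum]
    apply Finset.sum_congr rfl
    intro k _
    simp
  obtain ⟨I, hI⟩ : ∃ I : Finset (Fin L), I = Finset.univ.filter fun l => P l ≠ 0 := ⟨_, rfl⟩
  have hIne : I.Nonempty := by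
    by_contra h
    rw [Finset.not_nonempty_iff_eq_empty] at h
    apply hne
    funext k l
    have h1 : P l = 0 := by
      by_contra h2
      have : l ∈ I := by
        rw [hI, Finset.mem_filter]
        exact ⟨Finset.mem_univ _, h2⟩
      rw [h] at this
      exact absurd this (Finset.notMem_empty _)
    rw [← hPc k l, h1, coeff_zero]
    rfl
  obtain ⟨N, hN⟩ : ∃ N, I.card = N := ⟨_, rfl⟩
  have hN1 : 1 ≤ N := by
    rw [← hN]
    exact Finset.card_pos.2 hIne
  have hNL : N ≤ L := by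
    rw [← hN]
    simpa using Finset.card_le_univ I
  have hK1 : 1 ≤ K := by
    by_contra h
    obtain ⟨l, hl⟩ := hIne
    rw [hI, Finset.mem_filter] at hl
    apply hl.2
    rw [hP]
    have : K = 0 := by omega
    subst this
    simp
  obtain ⟨e, he⟩ : ∃ e : Fin N → Fin L, Function.Injective e ∧ ∀ l, l ∈ I ↔ ∃ j, e j = l := by
    refine ⟨I.orderEmbOfFin hN, (I.orderEmbOfFin hN).injective, ?_⟩
    intro l
    have h1 := Finset.range_orderEmbOfFin I hN
    rw [Set.ext_iff] at h1
    have h2 := h1 l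
    rw [Finset.mem_coe] at h2
    rw [← h2]
    rfl
  obtain ⟨hei, hem⟩ := he
  have hPe0 : ∀ j, P (e j) ≠ 0 := by
    intro j
    have := (hem (e j)).2 ⟨j, rfl⟩
    rw [hI, Finset.mem_filter] at this
    exact this.2
  obtain ⟨D, hD⟩ : ∃ D : Matrix (Fin N) (Fin N) ℝ[X], ∀ i j, D i j =
      taylor ((i : ℝ) * b) (P (e j)) * Polynomial.C (((3 : ℝ) ^ (e j : ℕ)) ^ (i : ℕ)) :=
    ⟨fun i j => taylor ((i : ℝ) * b) (P (e j)) * Polynomial.C (((3 : ℝ) ^ (e j : ℕ)) ^ (i : ℕ)),
      fun _ _ => rfl⟩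
  have hDd : ∀ i j, (D i j).natDegree ≤ (P (e j)).natDegree := by
    intro i j
    rw [hD]
    refine (natDegree_mul_C_le _ _).trans ?_
    rw [natDegree_taylor]
  obtain ⟨c1, c2⟩ := coeff_det D (fun j => (P (e j)).natDegree) hDd
  -- the determinant is not zero
  have hdet : D.det ≠ 0 := by
    intro h0
    rw [h0, coeff_zero] at c2
    have e1 : (Matrix.of fun i j => (D i j).coeff (P (e j)).natDegree) =
        Matrix.of fun i j => (P (e j)).leadingCoeff *
          (Matrix.vandermonde fun j : Fin N => (3 : ℝ) ^ (e j : ℕ)).transpose i j := by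
      ext i j
      rw [Matrix.of_apply, Matrix.of_apply, hD, coeff_mul_C, coeff_taylor_natDegree,
        Matrix.transpose_apply, Matrix.vandermonde_apply]
    rw [e1, Matrix.det_mul_row, Matrix.det_transpose] at c2
    have h1 : (∏ j, (P (e j)).leadingCoeff) ≠ 0 := by
      rw [Finset.prod_ne_zero_iff]
      intro j _
      exact leadingCoeff_ne_zero.2 (hPe0 j)
    have h2 : (Matrix.vandermonde fun j : Fin N => (3 : ℝ) ^ (e j : ℕ)).det ≠ 0 := by
      rw [Matrix.det_vandermonde_ne_zero_iff]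
      intro i j hij
      apply hei
      apply Fin.ext
      exact (pow_right_injective₀ (by norm_num : (0 : ℝ) < 3) (by norm_num)) hij
    exact mul_ne_zero h1 h2 c2.symm
  -- the determinant vanishes at many points
  apply hdet
  apply eq_zero_of_natDegree_lt_card_of_eval_eq_zero D.det (inj_points hab hb hM)
  · rintro ⟨r, s⟩
    have hx : ∀ x : ℝ, D.det.eval x = (Matrix.of fun i j => (D i j).eval x).det := by
      intro x
      have := RingHom.map_det (evalRingHom x) D
      rw [coe_evalRingHom] at this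
      rw [this]
      rfl
    rw [hx, ← Matrix.exists_mulVec_eq_zero_iff]
    refine ⟨fun j => (((3 ^ (r : ℕ) * 2 ^ (s : ℕ) : ℕ) : ℝ)) ^ (e j : ℕ), ?_, ?_⟩
    · intro h0
      have h1 := congrFun h0 ⟨0, hN1⟩
      have h2 : (((3 ^ (r : ℕ) * 2 ^ (s : ℕ) : ℕ) : ℝ)) ^ (e ⟨0, hN1⟩ : ℕ) ≠ 0 := by
        positivity
      exact h2 h1
    · funext i
      have h1 := hf (r + i) s (by have := r.2; have := i.2; omega) s.2
      rw [Finset.sum_comm] at h1
      have h2 : ∀ l : Fin L, ∑ k, f k l * ((((r + i) * b + s * a : ℕ) : ℝ)) ^ (k : ℕ) *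
          (((3 ^ ((r : ℕ) + i) * 2 ^ (s : ℕ) : ℕ) : ℝ)) ^ (l : ℕ) =
          (P l).eval ((((r + i) * b + s * a : ℕ) : ℝ)) *
          (((3 ^ ((r : ℕ) + i) * 2 ^ (s : ℕ) : ℕ) : ℝ)) ^ (l : ℕ) := by
        intro l
        rw [hPe, Finset.sum_mul]
      rw [Finset.sum_congr rfl fun l _ => h2 l] at h1
      have h3 : ∑ l ∈ I, (P l).eval ((((r + i) * b + s * a : ℕ) : ℝ)) *
          (((3 ^ ((r : ℕ) + i) * 2 ^ (s : ℕ) : ℕ) : ℝ)) ^ (l : ℕ) = 0 := by
        rw [← h1]
        apply Finset.sum_subset (Finset.subset_univ _)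
        intro l _ hl
        have h4 : P l = 0 := by
          by_contra h5
          apply hl
          rw [hI, Finset.mem_filter]
          exact ⟨Finset.mem_univ _, h5⟩
        rw [h4, eval_zero, zero_mul]
      have h4 : I = Finset.univ.image e := by
        ext l
        rw [hem, Finset.mem_image]
        simp
      rw [h4, Finset.sum_image (fun x _ y _ hxy => hei hxy)] at h3
      rw [Matrix.mulVec, dotProduct]
      rw [show (0 : Fin N → ℝ) i = 0 from rfl, ← h3]
      apply Finset.sum_congr rfl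
      intro j _
      rw [Matrix.of_apply, hD, eval_mul, eval_C, taylor_eval]
      have e2 : (((r * b + s * a : ℕ)) : ℝ) + (i : ℝ) * b = (((r + i) * b + s * a : ℕ) : ℝ) := by
        push_cast
        ring
      have e3 : (((3 ^ ((r : ℕ) + i) * 2 ^ (s : ℕ) : ℕ) : ℝ)) ^ (e j : ℕ) =
          ((3 : ℝ) ^ (e j : ℕ)) ^ (i : ℕ) * (((3 ^ (r : ℕ) * 2 ^ (s : ℕ) : ℕ) : ℝ)) ^ (e j : ℕ) := by
        push_cast
        rw [pow_add, ← pow_mul, mul_comm (e j : ℕ) (i : ℕ), pow_mul, ← mul_pow]
        ring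
      rw [e3, ← e2]
      ring_nf
  · rw [Fintype.card_prod, Fintype.card_fin]
    have h1 : ∑ j : Fin N, (P (e j)).natDegree ≤ N * (K - 1) := by
      calc ∑ j : Fin N, (P (e j)).natDegree ≤ ∑ _j : Fin N, (K - 1) :=
            Finset.sum_le_sum fun j _ => hPd (e j)
        _ = N * (K - 1) := by simp
    have h2 : N * (K - 1) ≤ L * (K - 1) := Nat.mul_le_mul_right _ hNL
    have h3 : L * (K - 1) < K * L := by
      have h4 : 1 ≤ L := hN1.trans hNL
      obtain ⟨K', rfl⟩ : ∃ K', K = K' + 1 := ⟨K - 1, by omega⟩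
      rw [Nat.add_sub_cancel]
      nlinarith
    rw [← pow_two]
    omega

end Pool.Agent.CYC
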