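import Pool.Agent.CYC.Sub
import Pool.Agent.SBT.UNI
import Pool.Agent.SBT.S1T
import Pool.Agent.SBT.SIM
import Pool.Agent.SBT.VOR
import Pool.Agent.SBT.LTM
import Pool.Agent.SBT.EG1
import Pool.Agent.SBT.EGM
import Pool.Agent.SBT.LCC
import Pool.Agent.SBT.BAG
import Pool.Agent.SBT.BAS
import Pool.Agent.CLX.S2V
import Pool.Agent.CLX.INH
import Pool.Agent.CLX.COL
import Pool.Agent.CLX.TSC
import Pool.Agent.CLX.TST
import Pool.Agent.CLX.TER
import Pool.Agent.CLX.TPG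
import Pool.Agent.CLX.TLD
import Pool.Agent.CLX.TCR
import Pool.Agent.CLX.TWN
import Pool.Agent.CLX.TRJ
import Pool.Agent.CYC.PDF
import Pool.Agent.CYC.EDT
import Pool.Agent.CYC.ZES
import Pool.Agent.CYC.MNR
import Pool.Agent.CYC.PTB
import Pool.Agent.CYC.LBD
import Pool.Agent.CYC.LNU
import Pool.Agent.CYC.LCP
import Pool.Agent.CYC.LGN
import Pool.Agent.CYC.CYS
import Pool.Agent.CYC.PRD
import Pool.Agent.CYC.LMN
import Pool.Agent.CYC.FNC
import Pool.Agent.CYC.Cycles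

/-!
# Compressible trajectories and cycles (MP_d02c56_nt): assembly
-/

set_option autoImplicit false

namespace Pool.Agent.CYC

open Pool.Agent.SBT Pool.Agent.CLX

theorem trj : Stmt_TRJ := by
  have UNI_ : Stmt_UNI := uni_proof sbb
  have S1T_ : Stmt_S1T := S1T_proof sbb sim_proof vor_proof ltm_proof
  have EG1_ : Stmt_EG1 := eg1_proof UNI_ S1T_
  have EGM_ : Stmt_EGM := egm_proof EG1_
  have BAG_ : Stmt_BAG := bag_proof bas_proof
  have S2V_ : Stmt_S2V := s2v_proof sbb sim_proof vor_proof ltm_proof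
  have TLD_ : Stmt_TLD := tld_proof lcc_proof BAG_ inh_proof EGM_
  have TCR_ : Stmt_TCR := tcr_proof UNI_ S2V_ TLD_
  have TER_ : Stmt_TER := ter_proof tst_proof
  have TWN_ : Stmt_TWN := twn_proof TER_ TCR_ col_proof
  exact trj_proof tsc_proof TWN_ tpg_proof col_proof

theorem lgn : Stmt_LGN :=
  lgn_proof (lcp_proof (edt_proof pdf_proof) ptb_proof (lbd_proof zes_proof mnr_proof) lnu_proof)

theorem lmn : Stmt_LMN := lmn_proof lgn cys_proof prd_proof

theorem fnc : Stmt_FNC := fnc_proof cys_proof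

theorem cycles_ (c : ℝ) :
    {Z : Set ℤ | IsCycle Z ∧ ∃ x ∈ Z, (∀ z ∈ Z, |x| ≤ |z|) ∧
      ∃ K : ℕ, (K : ℝ) ≤ c * Real.log Z.ncard ∧ LZE (par 1 x) Z.ncard K}.Finite :=
  cycles trj lmn fnc cys_proof c

end Pool.Agent.CYC
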