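import Pool.Agent.CLX.Final2
import Pool.Agent.CYC.Main

/-!
# The number of words of a cycle of the Collatz map (MP_d02c56_nt)
-/

set_option autoImplicit false

namespace Pool.Agent.CYC

open Filter Pool.Agent.SBT Pool.Agent.CLX

theorem abs_le_two_pow {z : ℤ} {N n : ℕ} (h : Real.log |(z : ℝ)| ≤ 2 * Real.sqrt N)
    (hn : 3 * Real.sqrt N ≤ n) : |z| ≤ 2 ^ n := by
  by_cases hz : z = 0
  · rw [hz, abs_zero]
    positivity
  · have hz' : (0 : ℝ) < |(z : ℝ)| := abs_pos.2 (by exact_mod_cast hz)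
    have h1 : Real.log |(z : ℝ)| ≤ n * Real.log 2 := by
      have h2 := Real.log_two_gt_d9
      have h3 : (0 : ℝ) ≤ n := Nat.cast_nonneg n
      have h4 : (n : ℝ) * (2 / 3) ≤ n * Real.log 2 := mul_le_mul_of_nonneg_left (by linarith) h3
      linarith
    rw [← Real.log_pow, Real.log_le_log_iff hz' (by positivity)] at h1
    exact_mod_cast h1

/-- all but finitely many cycles of the Collatz map have many words of length `n`, for all `n`
from three times the square root of the length of the cycle to `ε` times the length -/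
theorem cycle_blocks (c : ℕ) : ∃ ε : ℝ, 0 < ε ∧
    {Z : Set ℤ | IsCycle Z ∧ ∃ x ∈ Z, ∃ n : ℕ, 3 * Real.sqrt Z.ncard ≤ n ∧ n ≤ ε * Z.ncard ∧
      (Set.range (blk (par 1 x) n)).ncard ≤ c * n}.Finite := by
  obtain ⟨Λ, n₀, hn₀⟩ := UFK_ c 1
  refine ⟨1 / (Λ + 1), by positivity, ?_⟩
  obtain ⟨N₂, h₂⟩ := lmn
  refine (fnc (max (n₀ ^ 2) N₂)).subset ?_
  rintro Z ⟨hZ, x, hx, n, hn1, hn2, hn3⟩
  refine ⟨hZ, ?_⟩
  by_contra hcon
  have hcon' : max (n₀ ^ 2) N₂ < Z.ncard := not_le.mp hcon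
  have hN₁ : n₀ ^ 2 ≤ Z.ncard := (le_max_left _ _).trans hcon'.le
  have hN₂ : N₂ ≤ Z.ncard := (le_max_right _ _).trans hcon'.le
  have hnn : n₀ ≤ n := by
    have h1 : (n₀ : ℝ) ≤ Real.sqrt Z.ncard := by
      apply Real.le_sqrt_of_sq_le
      exact_mod_cast hN₁
    have h2 : (0 : ℝ) ≤ Real.sqrt Z.ncard := Real.sqrt_nonneg _
    have h3 : (n₀ : ℝ) ≤ n := by linarith
    exact_mod_cast h3
  obtain ⟨hfin, hone, hcy⟩ := cys_proof Z hZ
  obtain ⟨y, hy, hymin⟩ := Set.exists_min_image Z (fun z => |z|) hfin ⟨x, hx⟩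
  obtain ⟨_, hZx, _⟩ := hcy x hx
  obtain ⟨_, _, hdis⟩ := hcy y hy
  obtain ⟨t, _, ht⟩ : ∃ t < Z.ncard, y = C^[t] x := by
    have : y ∈ {z | ∃ t < Z.ncard, z = C^[t] x} := hZx ▸ hy
    exact this
  rw [C_eq_col] at ht
  have hlog := h₂ Z hZ hN₂ y hy hymin
  have hyn : |y| ≤ 2 ^ (1 * n) := by
    rw [one_mul]
    exact abs_le_two_pow hlog hn1
  have hlam : Λ * n < Z.ncard := by
    have h1 : ((Λ : ℝ) + 1) * n ≤ Z.ncard := by
      rw [div_mul_eq_mul_div, one_mul] at hn2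
      have := (le_div_iff₀ (by positivity)).1 hn2
      linarith
    have h2 : (Λ + 1) * n ≤ Z.ncard := by exact_mod_cast h1
    rcases Nat.eq_zero_or_pos n with h3 | h3
    · rw [h3, Nat.mul_zero]
      exact hone
    · have h4 : (Λ + 1) * n = Λ * n + n := by ring
      omega
  have h5 := hn₀ n hnn 1 y odd_one (by
    rw [abs_one, one_pow]
    exact one_le_pow₀ (by norm_num)) hyn
    (fun i j hij hj => by
      have := hdis i j hij (hj.trans_lt hlam)
      rwa [C_eq_col] at this)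
  rw [ht] at h5
  have h6 : nbl (par 1 ((col 1)^[t] x)) n (Λ * n) ≤ nbl (par 1 x) n (t + Λ * n) :=
    UFN_.nbl_shift (par 1 x) _ n t _ _ (fun s => UFN_.par_shift 1 x t s) le_rfl
  have h7 := CYU_.nbl_le_range (par 1 x) (col_proof 1 x odd_one).2.1 n (t + Λ * n)
  omega

theorem infinite_LZE (k x : ℤ) (hk : Odd k) (h : (Set.range fun i => (col k)^[i] x).Infinite)
    (c : ℝ) : ∀ᶠ N : ℕ in atTop, ∀ K : ℕ, LZE (par k x) N K → c * Real.log N < K := by
  obtain ⟨N₀, hN₀⟩ := trj c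
  have h1 : Tendsto (fun N : ℕ => 2 * Real.sqrt (N : ℝ)) atTop atTop :=
    (Real.tendsto_sqrt_atTop.comp tendsto_natCast_atTop_atTop).const_mul_atTop (by norm_num)
  filter_upwards [eventually_ge_atTop N₀, h1.eventually_ge_atTop (Real.log |(k : ℝ)|),
    h1.eventually_ge_atTop (Real.log |(x : ℝ)|)] with N h2 h3 h4 K hK
  exact hN₀ N h2 k x hk h3 h4 (fun i j hij _ => CYU_.distinct_of_infinite k x h i j hij) K hK

end Pool.Agent.CYC
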