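import Mathlib

/-!
# Cycles of the Collatz map (MP_d02c56_nt): definitions and statements of the modules

Recipes: /team-store/MP_d02c56_CYC.md
-/

set_option autoImplicit false

namespace Pool.Agent.CYC

/-- the Collatz map on the integers -/
def C (x : ℤ) : ℤ := if x % 2 = 0 then x / 2 else 3 * x + 1

/-- a cycle -/
def IsCycle (Z : Set ℤ) : Prop :=
  ∃ y : ℤ, ∃ N : ℕ, 1 ≤ N ∧ C^[N] y = y ∧ Z = {x | ∃ t < N, x = C^[t] y}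

/-- the number of even terms among the first `N` terms of the trajectory of `x` -/
def evs (x : ℤ) (N : ℕ) : ℕ := ((Finset.range N).filter fun t => C^[t] x % 2 = 0).card

/-- the number of odd terms among the first `N` terms of the trajectory of `x` -/
def ods (x : ℤ) (N : ℕ) : ℕ := ((Finset.range N).filter fun t => C^[t] x % 2 ≠ 0).card

/-! ## The linear form `b log 2 - a log 3` -/

/-- PDF: interpolation determinants of polynomials with nonnegative coefficients.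
Uses nothing. -/
def Stmt_PDF : Prop :=
  ∀ (N D : ℕ) (f : Fin N → Fin D → ℝ) (z : Fin N → ℝ) (ρ : ℝ), (∀ i m, 0 ≤ f i m) →
    (∀ j, 0 ≤ z j) → 1 ≤ ρ →
    |(Matrix.of fun i j : Fin N => ∑ m, f i m * z j ^ (m : ℕ)).det| * ρ ^ (N * (N - 1) / 2) ≤
      ∑ σ : Equiv.Perm (Fin N), ∏ j, ∑ m, f (σ j) m * (ρ * z j) ^ (m : ℕ)

/-- EDT: interpolation determinants of the functions `z^k 3^(l z)`. Uses PDF. -/
def Stmt_EDT : Prop :=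
  ∀ (N : ℕ) (k l : Fin N → ℕ) (z : Fin N → ℝ) (ρ : ℝ), (∀ j, 0 ≤ z j) → 1 ≤ ρ →
    |(Matrix.of fun i j : Fin N => z j ^ k i * (3 : ℝ) ^ ((l i : ℝ) * z j)).det| *
        ρ ^ (N * (N - 1) / 2) ≤
      ∑ σ : Equiv.Perm (Fin N), ∏ j, (ρ * z j) ^ k (σ j) * (3 : ℝ) ^ ((l (σ j) : ℝ) * (ρ * z j))

/-- ZES: the zero estimate. Uses nothing. -/
def Stmt_ZES : Prop :=
  ∀ (K L M a b : ℕ) (f : Fin K → Fin L → ℝ), Nat.Coprime a b → 1 ≤ b → M ≤ b → K * L ≤ M ^ 2 →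
    (∀ r s : ℕ, r < L + M → s < M →
      ∑ k, ∑ l, f k l * (((r * b + s * a : ℕ) : ℝ)) ^ (k : ℕ) * (((3 ^ r * 2 ^ s : ℕ) : ℝ)) ^ (l : ℕ)
        = 0) →
    f = 0

/-- MNR: a nonzero maximal minor. Uses nothing. -/
def Stmt_MNR : Prop :=
  ∀ (N : ℕ) (ι : Type) [Fintype ι] (A : Fin N → ι → ℝ), LinearIndependent ℝ A →
    ∃ c : Fin N → ι, (Matrix.of fun i j : Fin N => A i (c j)).det ≠ 0

/-- PTB: determinants of two matrices which are close to each other. Uses nothing. -/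
def Stmt_PTB : Prop :=
  ∀ (N : ℕ) (A E : Matrix (Fin N) (Fin N) ℝ) (H θ : ℝ), 0 ≤ H → 0 ≤ θ → θ ≤ 1 →
    (∀ i j, |A i j| ≤ H) → (∀ i j, |E i j| ≤ θ) →
    |(Matrix.of fun i j : Fin N => A i j * (1 + E i j)).det - A.det| ≤
      N.factorial * H ^ N * 2 ^ N * θ

/-- LBD: a lower bound for an arithmetic determinant; the row `i : Fin (K * L)` belongs to the
exponents `k = i / L`, `l = i % L`. Uses ZES, MNR. -/
def Stmt_LBD : Prop :=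
  ∀ (K L M a b : ℕ), Nat.Coprime a b → 1 ≤ b → M ≤ b → K * L ≤ M ^ 2 →
    ∃ r s : Fin (K * L) → ℕ, (∀ j, r j < L + M ∧ s j < M) ∧
      1 ≤ |(Matrix.of fun i j : Fin (K * L) =>
          ((r j : ℝ) + s j * ((a : ℝ) / b)) ^ ((i : ℕ) / L) *
            ((3 : ℝ) ^ (r j) * 2 ^ (s j)) ^ ((i : ℕ) % L)).det| * (b : ℝ) ^ (K * K * L)

/-- LNU: numerical inequalities, `K = 900 λ²`, `L = λ²`, `N = K L = 900 λ⁴`. Uses nothing. -/
def Stmt_LNU : Prop :=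
  ∀ n : ℕ, 20 ≤ n →
    ((900 * n ^ 4).factorial * ((186 * n ^ 2) ^ (900 * n ^ 2) * 3 ^ (186 * n ^ 4)) ^ (900 * n ^ 4) *
        3 ^ (n * (900 * n ^ 2 * (900 * n ^ 2) * n ^ 2)) * 2 ≤
      3 ^ (900 * n ^ 4 * (900 * n ^ 4 - 1) / 2)) ∧
    ((900 * n ^ 4).factorial * ((62 * n ^ 2) ^ (900 * n ^ 2) * 3 ^ (62 * n ^ 4)) ^ (900 * n ^ 4) *
        2 ^ (900 * n ^ 4) * 4 * 3 ^ (n * (900 * n ^ 2 * (900 * n ^ 2) * n ^ 2)) ≤
      3 ^ (150000 * n ^ 8)) ∧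
    30 * n ^ 4 ≤ 3 ^ (n - 1)

/-- LCP: the lower bound for coprime coefficients. Uses EDT, PTB, LBD, LNU. -/
def Stmt_LCP : Prop :=
  ∀ n a b : ℕ, 20 ≤ n → Nat.Coprime a b → 3 ^ (n - 1) < b → b ≤ 3 ^ n →
    ((3 : ℝ) ^ (150000 * n ^ 8))⁻¹ ≤ |b * Real.log 2 - a * Real.log 3|

/-- LGN: the lower bound. Uses LCP. -/
def Stmt_LGN : Prop :=
  ∃ b₀ : ℕ, ∀ b ≥ b₀, ∀ a : ℕ,
    Real.exp (-Real.sqrt b) ≤ |b * Real.log 2 - a * Real.log 3|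

/-! ## Cycles -/

/-- CYS: the structure of a cycle. Uses nothing. -/
def Stmt_CYS : Prop :=
  ∀ Z : Set ℤ, IsCycle Z → Z.Finite ∧ 1 ≤ Z.ncard ∧ ∀ x ∈ Z,
    C^[Z.ncard] x = x ∧ Z = {z | ∃ t < Z.ncard, z = C^[t] x} ∧
    ∀ i j, i < j → j < Z.ncard → C^[i] x ≠ C^[j] x

/-- PRD: the product formula. Uses nothing. -/
def Stmt_PRD : Prop :=
  ∀ (x : ℤ) (N K : ℕ), 1 ≤ N → C^[N] x = x → 2 ≤ K → (∀ t < N, (K : ℤ) ≤ |C^[t] x|) →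
    evs x N + ods x N = N ∧ ods x N ≤ evs x N ∧
    |(evs x N : ℝ) * Real.log 2 - (ods x N : ℝ) * Real.log 3| ≤ N / K

/-- LMN: the least element of a cycle. Uses LGN, CYS, PRD. -/
def Stmt_LMN : Prop :=
  ∃ N₀ : ℕ, ∀ Z : Set ℤ, IsCycle Z → N₀ ≤ Z.ncard → ∀ x ∈ Z, (∀ z ∈ Z, |x| ≤ |z|) →
    Real.log |(x : ℝ)| ≤ 2 * Real.sqrt Z.ncard

/-- FNC: finitely many cycles of bounded length. Uses CYS. -/
def Stmt_FNC : Prop :=
  ∀ N₀ : ℕ, {Z : Set ℤ | IsCycle Z ∧ Z.ncard ≤ N₀}.Finite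

end Pool.Agent.CYC
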