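import Pool.Agent.SBT.ANN
import Pool.Agent.SBT.AUXI
import Pool.Agent.SBT.CBN
import Pool.Agent.SBT.CHB
import Pool.Agent.SBT.CPS
import Pool.Agent.SBT.DAV
import Pool.Agent.SBT.GSY
import Pool.Agent.SBT.GWR
import Pool.Agent.SBT.KRS
import Pool.Agent.SBT.KTY
import Pool.Agent.SBT.LAT
import Pool.Agent.SBT.LB1
import Pool.Agent.SBT.LBH
import Pool.Agent.SBT.LNB
import Pool.Agent.SBT.MIN
import Pool.Agent.SBT.MK1
import Pool.Agent.SBT.NRK
import Pool.Agent.SBT.NRM
import Pool.Agent.SBT.ORD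
import Pool.Agent.SBT.PAR
import Pool.Agent.SBT.RD1
import Pool.Agent.SBT.RD2
import Pool.Agent.SBT.RED
import Pool.Agent.SBT.RT1
import Pool.Agent.SBT.RTA
import Pool.Agent.SBT.RTD
import Pool.Agent.SBT.RTH
import Pool.Agent.SBT.RTI
import Pool.Agent.SBT.RTL
import Pool.Agent.SBT.RTS
import Pool.Agent.SBT.RTU
import Pool.Agent.SBT.RTW
import Pool.Agent.SBT.SBB
import Pool.Agent.SBT.SM1
import Pool.Agent.SBT.SMB
import Pool.Agent.SBT.SMI
import Pool.Agent.SBT.SML
import Pool.Agent.SBT.SQN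
import Pool.Agent.SBT.SUB
import Pool.Agent.SBT.THA
import Pool.Agent.SBT.THB
import Pool.Agent.SBT.WRN

/-!
# The Subspace theorem (squad SBT), assembled without the later sections
-/

set_option autoImplicit false

namespace Pool.Agent.CYC

open Pool.Agent.SBT

theorem sbb : Stmt_SBB := by
  have GWR_ : Stmt_GWR := gwr_proof wrn_proof krs_proof kty_proof
  have RTS_ : Stmt_RTS := rts_proof rtd_proof GWR_ wrn_proof
  have RTW_ : Stmt_RTW := rtw_proof RTS_
  have RTL_ : Stmt_RTL := rtl_proof RTW_ rth_proof rti_proof rta_proof rtu_proof rt1_proof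
  have AUX_ : Stmt_AUX := aux_proof chb_proof lnb_proof
  have SM1_ : Stmt_SM1 := sm1_proof smi_proof smb_proof
  have SML_ : Stmt_SML := sml_proof SM1_
  have RED_ : Stmt_RED := red_proof rd1_proof rd2_proof
  have LBH_ : Stmt_LBH := lbh_proof lb1_proof
  have THA_ : Stmt_THA := tha_proof AUX_ SML_ RED_ nrm_proof nrk_proof LBH_ RTL_ sqn_proof
  have DAV_ : Stmt_DAV := dav_proof ORD_proof
  have MIN_ : Stmt_MIN := min_proof mk1_proof ORD_proof
  have GSY_ : Stmt_GSY := gsy_proof MIN_ lat_proof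
  have THB_ : Stmt_THB := thb_proof THA_ DAV_ cbn_proof cps_proof ann_proof
  have PAR_ : Stmt_PAR := par_proof GSY_ THB_
  have SUB_ : Stmt_SUB := sub_proof PAR_
  exact sbb_proof SUB_

end Pool.Agent.CYC
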